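import Pool.Agent.Work.MP_d02fb9_lc.FExt

/-! The generic extension carries the data `MD` when the uncovered sequence is generic. -/

namespace Pool.Agent.Work.MP_d02fb9_lc.L
open Pool.Agent.Lib.ZFModel Pool.Agent.Work.MP_63c7e0_lc Name

/-- `q` forces that the sequence `s` is covered by none of the sets enumerated by `R`. -/
def GS {P T : Type} [Preorder P] (R : P → T → ℕ → T → Prop) (q : P) (s : P → ℕ → T → Prop) :
    Prop :=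
  (∀ p p' m a, p' ≤ p → s p m a → s p' m a) ∧ (∀ p m a a', s p m a → s p m a' → a = a') ∧
  (∀ p m, ∃ p' ≤ p, ∃ a, s p' m a) ∧ ∀ γ, ∀ r ≤ q, ∃ r' ≤ r, ∃ m a, s r' m a ∧
    ∀ n, ∀ u ≤ r', R u γ n a → ∃ u' ≤ u, ∃ a', a' ≠ a ∧ R u' γ n a'

/-- The combinatorial properties of the poset used on the model side. -/
structure DS (P T : Type) [Preorder P] [LinearOrder T] (hv : P → T → ℕ → ℕ → Prop)
    (lev : T → T) (S : T → ℕ → Set T) : Prop where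
  neP : Nonempty P
  neT : Nonempty T
  mono : ∀ p q β n l, q ≤ p → hv p β n l → hv q β n l
  func : ∀ p β n l l', hv p β n l → hv p β n l' → l = l'
  long : ∀ p β n, ∃ q ≤ p, ∃ l, hv q β n l
  fin : ∀ v l, (S v l).Finite
  irr : ∀ v l, v ∉ S v l
  big : ∀ (i : T) (B : T → P → ℕ → ℕ → Prop), (∀ γ p q n M, q ≤ p → B γ p n M → B γ q n M) →
    (∀ γ p n, ∃ q ≤ p, ∃ M, B γ q n M) → ∃ β, ∀ γ ≤ i, ∀ q, ∃ r ≤ q, ∃ n0, ∀ n, n0 ≤ n →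
      ∀ r' ≤ r, ∀ l, hv r' β n l → ∃ M < l, B γ r' n M
  col : ∀ R : P → T → ℕ → ℕ → Prop, (∀ p q v n k, q ≤ p → R p v n k → R q v n k) → ∀ p0,
    (∀ n, ∀ q ≤ p0, ∃ r ≤ q, ∃ K, ∀ v k, ∀ r' ≤ r, R r' v n k → k < K) →
    ∀ q ≤ p0, ∃ r ≤ q, ∃ v, ∀ n k, ∀ r' ≤ r, R r' v n k →
      ∃ r'' ≤ r', ∃ a, (∃ l, hv r'' (lev v) n l ∧ a ∈ S v l) ∧ R r'' a n k
  cov : ∀ R : P → T → ℕ → T → Prop, (∀ p q γ n a, q ≤ p → R p γ n a → R q γ n a) →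
    ∀ p, ∃ q ≤ p, ∃ s, GS R q s

variable {P T : Type} [Preorder P] [LinearOrder T] [WellFoundedLT T]
variable {hv : P → T → ℕ → ℕ → Prop} {lev : T → T} {S : T → ℕ → Set T} (D : DS P T hv lev S)

noncomputable def cs (T : Type) [LinearOrder T] [WellFoundedLT T] (φ : Fml) (v : ℕ → Name P)
    (q : P) : P → ℕ → T → Prop :=
  Classical.epsilon (GS (F' φ v) q)
noncomputable def sN (T : Type) [LinearOrder T] [WellFoundedLT T] (φ : Fml) (v : ℕ → Name P)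
    (q : P) : Name P :=
  rName (fun x : ℕ × T => pairN (natN x.1) (oN x.2)) fun x p => cs T φ v q p x.1 x.2

noncomputable def ix (x : Name P) : T := @Function.invFun _ _ D.neT oN x

theorem ix_oN (i : T) : ix D (oN i) = i := by
  obtain ⟨p⟩ := D.neP
  exact @Function.leftInverse_invFun _ _ D.neT oN
    (fun i j h => oN_inj (p := p) (h ▸ EqF.refl _ _)) i

/-- Indices of the closure conditions and dense sets. -/
inductive Kd : Type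
  | th | f | a | o | h | fst | snd | s (φ : Fml) | sl (φ : Fml) (n : ℕ) | long (n : ℕ)
  | big (φ : Fml) | big2 (φ : Fml) | bd (φ : Fml) | wit (φ : Fml) (n K : ℕ) | col (φ : Fml)
  | col2 (φ : Fml) (n k : ℕ) | cv (φ : Fml) | cv1 (φ : Fml) | cv2 (φ : Fml) (n : ℕ)
  deriving Countable

def RN : Fam P T Kd (Name P) := fun k v c a y => match k with
  | .th => y = thN (T := T)
  | .f => y = fN hv
  | .a => y = AN hv lev S
  | .o => y = oN (a 0)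
  | .h => y = hN hv (ix D (v 0))
  | .fst => ∃ b, v 0 = upairN y b
  | .snd => ∃ b, v 0 = upairN b y
  | .s φ => y = sN T φ v (c 0)
  | _ => True

def WW : Fam P T Kd (P × T) := fun k v c _ y => match k with
  | .long n => ∃ l, hv y.1 (ix D (v 0)) n l
  | .big φ => ∀ γ ≤ ix D (v 0), ∀ q, ∃ r ≤ q, ∃ n0, ∀ n, n0 ≤ n →
      ∀ r' ≤ r, ∀ l, hv r' y.2 n l → ∃ M < l, BB φ (fun i => v (i + 1)) γ r' n M
  | .big2 φ => ∃ n0, ∀ n, n0 ≤ n → ∀ r' ≤ y.1, ∀ l, hv r' (ix D (v 1)) n l →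
      ∃ M < l, BB φ (fun i => v (i + 2)) (ix D (v 0)) r' n M
  | .bd φ => BD (T := T) φ v y.1 ∨
      ∃ n, ∀ r ≤ y.1, ∀ K, ∃ r' ≤ r, ∃ (i : T), ∃ k, K ≤ k ∧ F φ v r' i n k
  | .wit φ n K => ∃ k, K ≤ k ∧ F φ v y.1 y.2 n k
  | .col φ => ∀ n k, ∀ r' ≤ y.1, F φ v r' y.2 n k →
      ∃ r'' ≤ r', ∃ a, Am hv lev S r'' y.2 n a ∧ F φ v r'' a n k
  | .col2 φ n k => Am hv lev S y.1 (ix D (v 0)) n y.2 ∧ F φ (fun i => v (i + 1)) y.1 y.2 n k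
  | .cv φ => ∃ s, GS (T := T) (F' φ v) y.1 s
  | .sl φ m => cs T φ v (c 0) y.1 m y.2
  | .cv1 φ => ∃ m, cs T φ (fun i => v (i + 1)) (c 0) y.1 m y.2 ∧ ∀ n, ∀ u ≤ y.1,
      F' φ (fun i => v (i + 1)) u (ix D (v 0)) n y.2 →
      ∃ u' ≤ u, ∃ a', a' ≠ y.2 ∧ F' φ (fun i => v (i + 1)) u' (ix D (v 0)) n a'
  | .cv2 φ n => y.2 ≠ ix D (v 1) ∧ F' φ (fun i => v (i + 2)) y.1 (ix D (v 0)) n y.2
  | _ => True

variable {D} {p0 : P} {a0 : T} (g : GenW p0 a0 (RN D) (WW D))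

theorem th_mem : thN (T := T) ∈ g.N := by
  obtain ⟨y, hy, h⟩ := g.clN .th [] [] [] mem_list₀ mem_list₀ mem_list₀ ⟨_, rfl⟩
  exact h ▸ hy

theorem f_mem : fN hv ∈ g.N := by
  obtain ⟨y, hy, h⟩ := g.clN .f [] [] [] mem_list₀ mem_list₀ mem_list₀ ⟨_, rfl⟩
  exact h ▸ hy

theorem A_mem : AN hv lev S ∈ g.N := by
  obtain ⟨y, hy, h⟩ := g.clN .a [] [] [] mem_list₀ mem_list₀ mem_list₀ ⟨_, rfl⟩
  exact h ▸ hy

theorem o_mem {i : T} (hi : i ∈ g.AN) : oN i ∈ g.N := by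
  obtain ⟨y, hy, h⟩ := g.clN .o [] [] [i] mem_list₀ mem_list₀ (mem_list₁ hi) ⟨_, rfl⟩
  exact h ▸ hy

theorem h_mem {i : T} (hi : oN i ∈ g.N) : hN hv i ∈ g.N := by
  obtain ⟨y, hy, h⟩ := g.clN .h [oN i] [] [] (mem_list₁ hi) mem_list₀ mem_list₀ ⟨_, rfl⟩
  have h' : y = hN hv (ix D (oN i)) := h
  rw [ix_oN] at h'
  exact h' ▸ hy

theorem pair_mem {a b : Name P} (ha : a ∈ g.N) (hb : b ∈ g.N) : pairN a b ∈ g.N :=
  g.upair_mem _ (g.upair_mem _ ha _ ha) _ (g.upair_mem _ ha _ hb)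

theorem of_pair_mem {a b : Name P} (h : pairN a b ∈ g.N) : a ∈ g.N ∧ b ∈ g.N := by
  have := D.neP
  have key : ∀ {a b : Name P}, upairN a b ∈ g.N → a ∈ g.N ∧ b ∈ g.N := by
    intro a b h
    obtain ⟨y, hy, c, h1⟩ := g.clN .fst [upairN a b] [] [] (mem_list₁ h) mem_list₀ mem_list₀
      ⟨a, b, rfl⟩
    obtain ⟨z, hz, d, h2⟩ := g.clN .snd [upairN a b] [] [] (mem_list₁ h) mem_list₀ mem_list₀
      ⟨b, a, rfl⟩
    exact ⟨(upairN_inj h1).1 ▸ hy, (upairN_inj h2).2 ▸ hz⟩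
  exact key (key h).2

theorem isPair_pairN {a b : Name P} (ha : a ∈ g.N) (hb : b ∈ g.N) (h : pairN a b ∈ g.N) :
    IsPair g.toGen.E (g.toGen.cl ⟨_, h⟩) (g.toGen.cl ⟨_, ha⟩) (g.toGen.cl ⟨_, hb⟩) := by
  have zf := g.zfc.zf
  have h1 := g.toGen.mem_upair ha ha (g.upair_mem _ ha _ ha)
  have h2 := g.toGen.mem_upair ha hb (g.upair_mem _ ha _ hb)
  intro z
  refine (g.toGen.mem_upair (g.upair_mem _ ha _ ha) (g.upair_mem _ ha _ hb) h z).trans ⟨?_, ?_⟩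
  · rintro (rfl | rfl)
    · exact Or.inl fun x => (h1 x).trans or_self_iff
    · exact Or.inr h2
  · rintro (h3 | h3)
    · exact Or.inl (zf.extensionality _ _ fun x => (h3 x).trans ((h1 x).trans or_self_iff).symm)
    · exact Or.inr (zf.extensionality _ _ fun x => (h3 x).trans (h2 x).symm)

theorem mem_pairs {ι : Type} {a b : ι → Name P} {R : ι → P → Prop}
    (h : rName (fun i => pairN (a i) (b i)) R ∈ g.N) (z : g.toGen.M) :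
    g.toGen.E z (g.toGen.cl ⟨_, h⟩) ↔ ∃ i p, R i p ∧ g.G p ∧ ∃ (ha : a i ∈ g.N) (hb : b i ∈ g.N),
      IsPair g.toGen.E z (g.toGen.cl ⟨_, ha⟩) (g.toGen.cl ⟨_, hb⟩) := by
  refine (g.toGen.E_rName h z).trans ⟨?_, ?_⟩
  · rintro ⟨i, p, h1, h2, h3, rfl⟩
    obtain ⟨ha, hb⟩ := of_pair_mem g h3
    exact ⟨i, p, h1, h2, ha, hb, isPair_pairN g ha hb h3⟩
  · rintro ⟨i, p, h1, h2, ha, hb, h3⟩
    exact ⟨i, p, h1, h2, pair_mem g ha hb,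
      pair_unique g.zfc.zf h3 (isPair_pairN g ha hb (pair_mem g ha hb))⟩

def natM (n : ℕ) : g.toGen.M := g.toGen.cl ⟨_, g.nat_mem n⟩
abbrev JJ : Type := {i : T // oN i ∈ g.N}
noncomputable def oM (i : JJ g) : g.toGen.M := g.toGen.cl ⟨_, i.2⟩

theorem natM_inj {m n : ℕ} (h : natM g m = natM g n) : m = n := by
  rcases lt_trichotomy m n with h1 | h1 | h1
  · exact absurd ((g.toGen.mem_nat g.nat_mem _ n).2 ⟨m, h1, h.symm⟩)
      (not_mem_self g.zfc.zf (natM g n))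
  · exact h1
  · exact absurd ((g.toGen.mem_nat g.nat_mem _ m).2 ⟨n, h1, h⟩)
      (not_mem_self g.zfc.zf (natM g m))

theorem oM_inj {i j : JJ g} (h : oM g i = oM g j) : i = j := by
  obtain ⟨p, -, h1⟩ := g.toGen.cl_eq.1 h
  exact Subtype.ext (oN_inj h1)

theorem mem_oM (a : g.toGen.M) (j : JJ g) :
    g.toGen.E a (oM g j) ↔ ∃ i : JJ g, i.1 < j.1 ∧ a = oM g i := by
  have h1 : rName (fun i : Set.Iio j.1 => oN i.1) (fun _ _ => True) ∈ g.N :=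
    oN_eq (P := P) j.1 ▸ j.2
  have h2 : oM g j = g.toGen.cl ⟨_, h1⟩ := congrArg g.toGen.cl (Subtype.ext (oN_eq j.1))
  rw [h2, g.toGen.E_rName]
  exact ⟨fun ⟨i, _, _, _, hi, h⟩ => ⟨⟨i.1, hi⟩, i.2, h⟩,
    fun ⟨i, hi, h⟩ => ⟨⟨i.1, hi⟩, p0, trivial, g.G_p0, i.2, h⟩⟩

theorem mem_th (a : g.toGen.M) : g.toGen.E a (g.toGen.cl ⟨_, th_mem g⟩) ↔ ∃ j, a = oM g j :=
  (g.toGen.E_rName (th_mem g) a).trans ⟨fun ⟨i, _, _, _, hi, h⟩ => ⟨⟨i, hi⟩, h⟩,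
    fun ⟨i, h⟩ => ⟨i.1, p0, trivial, g.G_p0, i.2, h⟩⟩

theorem exists_val (j : JJ g) (n : ℕ) : ∃ l p, g.G p ∧ hv p j.1 n l := by
  obtain ⟨r, _, hr, _, _, l, hl⟩ := g.meet (.long n) [oN j.1] [] [] (mem_list₁ j.2) mem_list₀
    mem_list₀ p0 g.G_p0 fun q _ => by
      obtain ⟨r, hr, h⟩ := D.long q (ix D (oN j.1)) n
      exact ⟨r, hr, a0, h⟩
  have hl' : hv r (ix D (oN j.1)) n l := hl
  rw [ix_oN] at hl'
  exact ⟨l, r, hr, hl'⟩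

noncomputable def hh (j : JJ g) (n : ℕ) : ℕ := (exists_val g j n).choose

theorem val_eq {β n l l'} {p q : P} (hp : g.G p) (hq : g.G q) (h : hv p β n l)
    (h' : hv q β n l') : l = l' := by
  obtain ⟨r, -, h1, h2⟩ := g.dir _ _ hp hq
  exact D.func r β n l l' (D.mono _ _ _ _ _ h1 h) (D.mono _ _ _ _ _ h2 h')

theorem mem_hM (z : g.toGen.M) (j : JJ g) : g.toGen.E z (g.toGen.cl ⟨_, h_mem g j.2⟩) ↔
    ∃ n, IsPair g.toGen.E z (natM g n) (natM g (hh g j n)) := by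
  refine (mem_pairs g (h_mem g j.2) z).trans ⟨?_, ?_⟩
  · rintro ⟨⟨n, l⟩, p, h1, h2, _, _, h3⟩
    obtain ⟨q, h4, h5⟩ := (exists_val g j n).choose_spec
    obtain rfl : l = hh g j n := val_eq g h2 h4 h1 h5
    exact ⟨n, h3⟩
  · rintro ⟨n, h⟩
    obtain ⟨q, h4, h5⟩ := (exists_val g j n).choose_spec
    exact ⟨(n, hh g j n), q, h5, h4, _, _, h⟩

theorem mem_fM (z : g.toGen.M) : g.toGen.E z (g.toGen.cl ⟨_, f_mem g⟩) ↔
    ∃ j : JJ g, IsPair g.toGen.E z (oM g j) (g.toGen.cl ⟨_, h_mem g j.2⟩) :=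
  (mem_pairs g (f_mem g) z).trans ⟨fun ⟨i, _, _, _, hi, _, h⟩ => ⟨⟨i, hi⟩, h⟩,
    fun ⟨i, h⟩ => ⟨i.1, p0, trivial, g.G_p0, i.2, _, h⟩⟩

theorem tri_iff (v : JJ g) (n : ℕ) (a : g.toGen.M) :
    Tri g.toGen.E (g.toGen.cl ⟨_, A_mem g⟩) (oM g v) (natM g n) a ↔
      ∃ j : JJ g, a = oM g j ∧ ∃ p, g.G p ∧ Am hv lev S p v.1 n j.1 := by
  have zf := g.zfc.zf
  constructor
  · rintro ⟨q, h1, z, hz, h2⟩
    obtain ⟨⟨v', n', a'⟩, p, h3, h4, ha, hb, h5⟩ := (mem_pairs g (A_mem g) z).1 hz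
    obtain ⟨rfl, rfl⟩ := pair_inj zf h2 h5
    obtain ⟨hc, hd⟩ := of_pair_mem g ha
    obtain ⟨h6, h7⟩ := pair_inj zf h1 (isPair_pairN g hc hd ha)
    obtain rfl : v = ⟨v', hc⟩ := oM_inj g h6
    obtain rfl : n = n' := natM_inj g h7
    exact ⟨⟨a', hb⟩, rfl, p, h4, h3⟩
  · rintro ⟨j, rfl, p, h1, h2⟩
    have ha := pair_mem g v.2 (g.nat_mem n)
    obtain ⟨z, hz⟩ := exists_pair zf (g.toGen.cl ⟨_, ha⟩) (oM g j)
    exact ⟨_, isPair_pairN g v.2 (g.nat_mem n) ha, z,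
      (mem_pairs g (A_mem g) z).2 ⟨(v.1, n, j.1), p, h2, h1, ha, j.2, hz⟩, hz⟩

theorem ext_fin (v : JJ g) (n : ℕ) :
    {a | Tri g.toGen.E (g.toGen.cl ⟨_, A_mem g⟩) (oM g v) (natM g n) a}.Finite := by
  by_cases h : ∃ l p, g.G p ∧ hv p (lev v.1) n l
  · obtain ⟨l, p, h1, h2⟩ := h
    refine (((D.fin v.1 l).preimage Subtype.val_injective.injOn).image (oM g)).subset ?_
    intro a ha
    obtain ⟨j, rfl, q, h3, l', h4, h5⟩ := (tri_iff g v n a).1 ha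
    obtain rfl := val_eq g h1 h3 h2 h4
    exact ⟨j, h5, rfl⟩
  · refine Set.finite_empty.subset fun a ha => ?_
    obtain ⟨j, rfl, q, h3, l', h4, -⟩ := (tri_iff g v n a).1 ha
    exact h ⟨l', q, h3, h4⟩

theorem ext_big (R : g.toGen.M → g.toGen.M → g.toGen.M → Prop)
    (h : Dfn g.toGen.E (fun v => R (v 0) (v 1) (v 2)))
    (hf : ∀ γ n k k', R (oM g γ) (natM g n) (natM g k) → R (oM g γ) (natM g n) (natM g k') → k = k')
    (i : JJ g) : ∃ β : JJ g, ∀ γ : JJ g, γ.1 < i.1 ∨ γ = i → ∃ n0, ∀ n, n0 ≤ n → ∀ k,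
      R (oM g γ) (natM g n) (natM g k) → k < hh g β n := by
  obtain ⟨φ, l, hl, hF⟩ := g.toGen.truth3 R
  have hF' : ∀ (γ : JJ g) n k, R (oM g γ) (natM g n) (natM g k) ↔
      ∃ p, g.G p ∧ F φ (envOf emptyName l) p γ.1 n k := fun γ n k => hF _ _ _
  obtain ⟨β, hβ⟩ := D.big (ix D (oN i.1)) (BB φ (envOf emptyName l))
    (fun γ p q n M h => Or.imp (fun h' => Forces.mono h' h) fun h' r hr => h' r (hr.trans h))
    fun γ p n => by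
      by_cases h : ∃ r ≤ p, ∃ k, F φ (envOf emptyName l) r γ n k
      · obtain ⟨r, hr, k, hk⟩ := h
        exact ⟨r, hr, k, Or.inl hk⟩
      · exact ⟨p, le_rfl, 0, Or.inr fun r hr k hk => h ⟨r, hr, k, hk⟩⟩
  obtain ⟨_, _, _, β, hβ, h1⟩ := g.meet (.big φ) (oN i.1 :: l) [] [] (mem_listc i.2 hl) mem_list₀
    mem_list₀ p0 g.G_p0 fun q _ => ⟨q, le_rfl, β, hβ⟩
  refine ⟨⟨β, o_mem g hβ⟩, fun γ hγ => ?_⟩
  have h2 : γ.1 ≤ ix D (oN i.1) := by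
    rw [ix_oN]
    exact hγ.elim le_of_lt fun h => h ▸ le_rfl
  obtain ⟨r, _, hr, _, _, n0, h3⟩ := g.meet (.big2 φ) (oN γ.1 :: oN β :: l) [] []
    (mem_listc γ.2 (mem_listc (o_mem g hβ) hl)) mem_list₀ mem_list₀ p0 g.G_p0 fun q _ => by
      obtain ⟨r, hr, h4⟩ := h1 γ.1 h2 q
      refine ⟨r, hr, a0, ?_⟩
      change ∃ n0, ∀ n, n0 ≤ n → ∀ r' ≤ r, ∀ l', hv r' (ix D (oN β)) n l' →
        ∃ M < l', BB φ (envOf emptyName l) (ix D (oN γ.1)) r' n M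
      rw [ix_oN, ix_oN]
      exact h4
  change ∀ n, n0 ≤ n → ∀ r' ≤ r, ∀ l', hv r' (ix D (oN β)) n l' →
    ∃ M < l', BB φ (envOf emptyName l) (ix D (oN γ.1)) r' n M at h3
  rw [ix_oN, ix_oN] at h3
  refine ⟨n0, fun n hn k hR => ?_⟩
  obtain ⟨p, hp, h4⟩ := (hF' _ _ _).1 hR
  obtain ⟨q, hq, h5⟩ := (exists_val g ⟨β, o_mem g hβ⟩ n).choose_spec
  obtain ⟨s, hs, a1, a2⟩ := g.dir _ _ hp hq
  obtain ⟨u, hu, a3, a4⟩ := g.dir _ _ hs hr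
  obtain ⟨M, h6, h7 | h7⟩ := h3 n hn u a4 _ (D.mono _ _ _ _ _ (a3.trans a2) h5)
  · rwa [hf γ n k M hR ((hF' _ _ _).2 ⟨u, hu, h7⟩)]
  · exact absurd (Forces.mono h4 (a3.trans a1)) (h7 u le_rfl k)

theorem ext_col (R : g.toGen.M → g.toGen.M → g.toGen.M → Prop)
    (h : Dfn g.toGen.E (fun v => R (v 0) (v 1) (v 2)))
    (hb : ∀ n, ∃ K, ∀ v k, R (oM g v) (natM g n) (natM g k) → k < K) :
    ∃ v, ∀ n k, R (oM g v) (natM g n) (natM g k) → ∃ a,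
      Tri g.toGen.E (g.toGen.cl ⟨_, A_mem g⟩) (oM g v) (natM g n) a ∧
        R a (natM g n) (natM g k) := by
  obtain ⟨φ, l, hl, hF⟩ := g.toGen.truth3 R
  have hF' : ∀ (γ : JJ g) n k, R (oM g γ) (natM g n) (natM g k) ↔
      ∃ p, g.G p ∧ F φ (envOf emptyName l) p γ.1 n k := fun γ n k => hF _ _ _
  obtain ⟨p, _, hp, _, _, h1 | ⟨n, h1⟩⟩ := g.meet (.bd φ) l [] [] hl mem_list₀ mem_list₀
    p0 g.G_p0 fun q _ => by
      by_cases hq : BD (T := T) φ (envOf emptyName l) q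
      · exact ⟨q, le_rfl, a0, Or.inl hq⟩
      · unfold BD at hq
        push Not at hq
        obtain ⟨n, r, hr, h⟩ := hq
        refine ⟨r, hr, a0, Or.inr ⟨n, fun s hs K => ?_⟩⟩
        obtain ⟨i, k, r', a1, a2, a3⟩ := h s hs K
        exact ⟨r', a1, i, k, a3, a2⟩
  · obtain ⟨r, _, hr, v, hv', h2⟩ := g.meet (.col φ) l [] [] hl mem_list₀ mem_list₀ p hp
      (D.col (F φ (envOf emptyName l)) (fun _ _ _ _ _ h h' => Forces.mono h' h) p h1)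
    refine ⟨⟨v, o_mem g hv'⟩, fun n k hR => ?_⟩
    obtain ⟨q, hq, h3⟩ := (hF' _ _ _).1 hR
    obtain ⟨s, hs, a1, a2⟩ := g.dir _ _ hq hr
    obtain ⟨u, _, hu, a, ha, h4⟩ := g.meet (.col2 φ n k) (oN v :: l) [] []
      (mem_listc (o_mem g hv') hl) mem_list₀ mem_list₀ s hs fun s' hs' => by
        obtain ⟨r'', b1, a, b2⟩ := h2 n k s' (hs'.trans a2) (Forces.mono h3 (hs'.trans a1))
        refine ⟨r'', b1, a, ?_⟩
        change Am hv lev S r'' (ix D (oN v)) n a ∧ F φ (envOf emptyName l) r'' a n k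
        rw [ix_oN]
        exact b2
    change Am hv lev S u (ix D (oN v)) n a ∧ F φ (envOf emptyName l) u a n k at h4
    rw [ix_oN] at h4
    exact ⟨oM g ⟨a, o_mem g ha⟩, (tri_iff g _ _ _).2 ⟨_, rfl, u, hu, h4.1⟩,
      (hF' _ _ _).2 ⟨u, hu, h4.2⟩⟩
  · obtain ⟨K, hK⟩ := hb n
    obtain ⟨r, _, hr, v, hv', k, h2, h3⟩ := g.meet (.wit φ n K) l [] [] hl mem_list₀ mem_list₀ p hp
      fun q hq => h1 q hq K
    exact absurd (hK ⟨v, o_mem g hv'⟩ k ((hF' _ _ _).2 ⟨r, hr, h3⟩)) (by omega)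

theorem ext_cov (R : g.toGen.M → g.toGen.M → g.toGen.M → Prop)
    (h : Dfn g.toGen.E (fun v => R (v 0) (v 1) (v 2)))
    (hf : ∀ γ n a a', R (oM g γ) (natM g n) (oM g a) → R (oM g γ) (natM g n) (oM g a') →
      oM g a = oM g a') :
    ∃ (s : ℕ → JJ g) (c : g.toGen.M),
      (∀ p, g.toGen.E p c ↔ ∃ n, IsPair g.toGen.E p (natM g n) (oM g (s n))) ∧
      ∀ γ, ∃ m, ∀ n, ¬ R (oM g γ) (natM g n) (oM g (s m)) := by
  obtain ⟨φ, l, hl, hF⟩ := g.toGen.truth3 R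
  have hF' : ∀ (γ : JJ g) n (a : JJ g), R (oM g γ) (natM g n) (oM g a) ↔
      ∃ p, g.G p ∧ F' φ (envOf emptyName l) p γ.1 n a.1 := fun γ n k => hF _ _ _
  obtain ⟨q, hqN, hq, _, _, h0⟩ := g.meet (.cv φ) l [] [] hl mem_list₀ mem_list₀ p0 g.G_p0
    fun p _ => by
      obtain ⟨q, h1, h2⟩ := D.cov (F' φ (envOf emptyName l))
        (fun _ _ _ _ _ h h' => Forces.mono h' h) p
      exact ⟨q, h1, a0, h2⟩
  obtain ⟨s1, s2, s3, s4⟩ : GS (F' φ (envOf emptyName l)) q (cs T φ (envOf emptyName l) q) :=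
    Classical.epsilon_spec h0
  have h2 : sN T φ (envOf emptyName l) q ∈ g.N := by
    obtain ⟨y, hy, h⟩ := g.clN (.s φ) l [q] [] hl (mem_list₁ hqN) mem_list₀ ⟨_, rfl⟩
    exact h ▸ hy
  have h1 : ∀ m, ∃ p, g.G p ∧ ∃ a ∈ g.AN, cs T φ (envOf emptyName l) q p m a := fun m => by
    obtain ⟨p, -, hp, a, ha, h⟩ := g.meet (.sl φ m) l [q] [] hl (mem_list₁ hqN) mem_list₀ p0 g.G_p0
      fun p _ => by
        obtain ⟨p', b1, a, b2⟩ := s3 p m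
        exact ⟨p', b1, a, b2⟩
    exact ⟨p, hp, a, ha, h⟩
  choose sp hsp sa hsa hs using h1
  have hu : ∀ m p a, g.G p → cs T φ (envOf emptyName l) q p m a → a = sa m := by
    intro m p a hp ha
    obtain ⟨r, -, b1, b2⟩ := g.dir _ _ hp (hsp m)
    exact s2 r m _ _ (s1 _ _ _ _ b1 ha) (s1 _ _ _ _ b2 (hs m))
  refine ⟨fun n => ⟨_, o_mem g (hsa n)⟩, g.toGen.cl ⟨_, h2⟩, fun z => (mem_pairs g h2 z).trans
    ⟨?_, fun ⟨n, h⟩ => ⟨(n, sa n), sp n, hs n, hsp n, _, _, h⟩⟩, fun γ => ?_⟩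
  · rintro ⟨⟨n, a⟩, p, b1, b2, _, _, b3⟩
    obtain rfl : a = sa n := hu n p a b2 b1
    exact ⟨n, b3⟩
  obtain ⟨r, _, hr, a, ha, m, h3, h4⟩ := g.meet (.cv1 φ) (oN γ.1 :: l) [q] []
    (mem_listc γ.2 hl) (mem_list₁ hqN) mem_list₀ q hq fun r hr => by
      obtain ⟨r', b1, m, a, b2, b3⟩ := s4 (ix D (oN γ.1)) r hr
      exact ⟨r', b1, a, m, b2, b3⟩
  obtain rfl : a = sa m := hu m r a hr h3
  refine ⟨m, fun n hR => ?_⟩
  obtain ⟨p, hp, h5⟩ := (hF' _ _ _).1 hR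
  obtain ⟨u, hu', b1, b2⟩ := g.dir _ _ hp hr
  obtain ⟨w, _, hw, a, ha', h6⟩ := g.meet (.cv2 φ n) (oN γ.1 :: oN (sa m) :: l) [] []
    (mem_listc γ.2 (mem_listc (o_mem g ha) hl)) mem_list₀ mem_list₀ u hu' fun u1 h6 => by
      have h7 : F' φ (envOf emptyName l) u1 (ix D (oN γ.1)) n (sa m) := by
        rw [ix_oN]
        exact Forces.mono h5 (h6.trans b1)
      obtain ⟨u', c1, a', c2, c3⟩ := h4 n u1 (h6.trans b2) h7
      refine ⟨u', c1, a', ?_, c3⟩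
      change a' ≠ ix D (oN (sa m))
      rwa [ix_oN]
  change a ≠ ix D (oN (sa m)) ∧ F' φ (envOf emptyName l) w (ix D (oN γ.1)) n a at h6
  rw [ix_oN, ix_oN] at h6
  have h7 := oM_inj g (hf γ n _ ⟨a, o_mem g ha'⟩ hR ((hF' _ _ _).2 ⟨w, hw, h6.2⟩))
  exact h6.1 (congrArg Subtype.val h7).symm

theorem DS.model (D : DS P T hv lev S) : ∃ (M : Type 1) (E : M → M → Prop), IsZFC E ∧
    ∃ θ, IsOrd E θ ∧ DomLe E θ ∧ (∀ ν, E ν θ → ¬ DomLe E ν) ∧ ¬ CofLe E θ ∧ LamLe E θ := by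
  obtain ⟨p0⟩ := D.neP
  obtain ⟨a0⟩ := D.neT
  obtain ⟨g⟩ := exists_genW p0 a0 (RN D) (WW D)
  let md : MD g.toGen.E := ⟨natM g, g.toGen.cl ⟨_, g.omega_mem⟩, g.toGen.mem_nat g.nat_mem,
    g.toGen.mem_omega g.nat_mem g.omega_mem, JJ g, fun i j => i.1 < j.1,
    fun i j => (lt_trichotomy i.1 j.1).imp_right (Or.imp_left Subtype.ext),
    ⟨⟨a0, o_mem g g.a0_mem⟩⟩, oM g, mem_oM g, _, mem_th g, hh g, _, mem_hM g, _, mem_fM g, _,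
    ext_fin g, fun v n a h => by
      obtain ⟨j, h1, p, -, l, -, h2⟩ := (tri_iff g v n a).1 h
      exact ⟨j, fun e => D.irr v.1 l (e ▸ h2), h1⟩, ext_big g, ext_col g, ext_cov g⟩
  exact ⟨_, g.toGen.E, g.zfc, md.θ, isOrd_θ md, domLe_θ g.zfc.zf md,
    fun ν hν => not_domLe g.zfc.zf md hν, not_cofLe g.zfc md, lamLe_θ g.zfc md⟩

end Pool.Agent.Work.MP_d02fb9_lc.L
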