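import Mathlib.SetTheory.Cardinal.Aleph
import Mathlib.SetTheory.Cardinal.Arithmetic

/-! The properties of the base poset that are used by the iteration. -/

namespace Pool.Agent.Work.MP_d02fb9_lc.L

open Cardinal Set

/-- `tv p ξ m a`: the condition `p` gives the value `a` to the `ξ`-th generic sequence at `m`. -/
structure BSys (B A T Λ : Type) [Preorder B] (tv : B → Λ → ℕ → T → Prop) : Prop where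
  neB : Nonempty B
  infA : ℵ₀ ≤ #A
  ltA : #A < #T
  cc : ∀ X : Set B, ∃ X' ⊆ X, #X' ≤ #A ∧ ∀ p ∈ X, ∃ p' ∈ X', ∃ r, r ≤ p ∧ r ≤ p'
  unc : ∀ (ι : Type) (K : Set ι), #K ≤ ℵ_ 3 → ∀ (D : ι → B → Prop) (b : B),
    (∀ t p q, q ≤ p → D t p → D t q) → (∀ t ∈ K, ∀ p ≤ b, ∃ q ≤ p, D t q) →
    ∃ c : ι → ℕ, ∀ n, ∃ b' ≤ b, ∀ t ∈ K, c t = n → D t b'
  mono : ∀ p q ξ m a, q ≤ p → tv p ξ m a → tv q ξ m a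
  func : ∀ p ξ m a a', tv p ξ m a → tv p ξ m a' → a = a'
  long : ∀ p ξ m, ∃ q ≤ p, ∃ a, tv q ξ m a
  swap : ∀ C : Set B, #C ≤ #T → ∀ b, ∃ b1 ≤ b, ∃ ξ, ∀ b2 ≤ b1, ∃ m, ∃ b0 ≤ b2, ∃ K : Set T,
    ¬ K.Countable ∧ ∀ a ∈ K, ∀ u ≤ b0, ∃ w ≤ b2, tv w ξ m a ∧
      ∀ c ∈ C, (∃ r, r ≤ w ∧ r ≤ c) → ∃ r, r ≤ u ∧ r ≤ c

end Pool.Agent.Work.MP_d02fb9_lc.L
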