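import Pool.Agent.Work.MP_d02fb9_lc.L.Nodes
import Pool.Agent.Work.MP_d02fb9_lc.L.Poset
import Pool.Agent.Work.MP_d02fb9_lc.L.Iface
import Pool.Agent.Work.MP_d02fb9_lc.L.Ext

/-! Ground-level properties of the iteration over a base poset. -/

namespace Pool.Agent.Work.MP_d02fb9_lc.L

open Cardinal Set Pool.Agent.Lib.ClubGuess

variable {B A T Λ : Type} [Preorder B] [LinearOrder T] [WellFoundedLT T]
  {tv : B → Λ → ℕ → T → Prop}

theorem exists_common (Y : BSys B A T Λ tv) {ι : Type} (K : Set ι) (hK : #K ≤ ℵ_ 3) (b : B)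
    (W : ι → PP B A T → Prop)
    (hW : ∀ t ∈ K, ∀ u ≤ b, ∃ p, W t p ∧ ∃ r, r ≤ u ∧ r ≤ p.1.base) :
    ∃ (c : ι → ℕ) (p : ι → PP B A T), (∀ t ∈ K, W t (p t)) ∧ ∀ n, ∀ L ⊆ K, (∀ t ∈ L, c t = n) →
      ∃ L' ⊆ L, L'.Countable ∧ ∀ t ∈ L, ∃ t' ∈ L', ∃ r, r ≤ p t ∧ r ≤ p t' := by
  classical
  obtain ⟨c, hc⟩ := Y.unc ι K hK (fun t u => ∃ p, W t p ∧ u ≤ p.1.base) b
    (fun t p q h ⟨w, h1, h2⟩ => ⟨w, h1, h.trans h2⟩) fun t ht u hu => by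
      obtain ⟨p, h1, r, h2, h3⟩ := hW t ht u hu
      exact ⟨r, h2, p, h1, h3⟩
  choose b' hb1 hb2 using hc
  rcases K.eq_empty_or_nonempty with rfl | ⟨t0, ht0⟩
  · refine ⟨c, fun t => ?_, by simp, fun n L hL _ => ⟨∅, by simp, by simp, fun t ht => (hL ht).elim⟩⟩
    have := Y.neB
    have : Nonempty T := mk_ne_zero_iff.1 (aleph0_pos.trans_le (Y.infA.trans Y.ltA.le)).ne'
    exact Classical.choice pp_nonempty
  have : Nonempty (PP B A T) := ⟨(hb2 _ t0 ht0 rfl).choose⟩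
  choose! p hp1 hp2 using fun t ht => hb2 (c t) t ht rfl
  refine ⟨c, p, hp1, fun n L hL hn => ?_⟩
  obtain ⟨L', h1, h2, h3⟩ := ccc_fin (fun t => tr (p t)) (fun t => sup (p t))
    (fun t => sup_finite _) L
  refine ⟨L', h1, h2, fun t ht => ?_⟩
  obtain ⟨t', h4, h5⟩ := h3 t ht
  exact ⟨t', h4, pp_link (b := b' n) (hn t ht ▸ hp2 t (hL ht))
    (hn t' (h1 h4) ▸ hp2 t' (hL (h1 h4))) h5⟩

theorem pp_catch (Y : BSys B A T Λ tv) {ι : Type} (K : Set ι) (hK : #K ≤ ℵ_ 3) (y : ι → Set T)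
    (hK1 : ∀ s ⊆ K, s.Countable → ∃ t' ∈ K, ∀ t ∈ s, y t ⊆ y t')
    (R : PP B A T → T → ℕ → ℕ → Prop) (hm : ∀ p q v n k, q ≤ p → R p v n k → R q v n k)
    (q : PP B A T) : ∃ q' ≤ q, ∃ t ∈ K, ∀ n k, ∀ r ≤ q', ∀ t' ∈ K, ∀ w ∈ y t', R r w n k →
      ∃ r1 ≤ r, ∃ w1 ∈ y t, R r1 w1 n k := by
  by_contra! H
  obtain ⟨c, p, hp, hc⟩ := exists_common Y K hK q.1.base (fun t p => ∃ n k, ∃ t' ∈ K, ∃ w ∈ y t',
    R p w n k ∧ ∀ r1 ≤ p, ∀ w1 ∈ y t, ¬ R r1 w1 n k) fun t ht u hu => by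
      obtain ⟨q', h1, h2⟩ := pp_setb q hu
      obtain ⟨n, k, r, h3, t', h4, w, h5, h6, h7⟩ := H q' h1 t ht
      exact ⟨r, ⟨n, k, t', h4, w, h5, h6, h7⟩, r.1.base, h2 ▸ base_le h3, le_rfl⟩
  obtain ⟨t0, ht0, -⟩ := hK1 ∅ (empty_subset _) countable_empty
  have : Nonempty ι := ⟨t0⟩
  have : Nonempty T := mk_ne_zero_iff.1 (aleph0_pos.trans_le (Y.infA.trans Y.ltA.le)).ne'
  choose! n k t' h1 w h2 h3 h4 using hp
  have hcof : ∃ x : ℕ × ℕ × ℕ, ∀ s ∈ K, ∃ t ∈ K, (c t, n t, k t) = x ∧ y s ⊆ y t := by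
    by_contra! hx
    choose s hs1 hs2 using hx
    obtain ⟨t, ht, h5⟩ := hK1 (range s) (by rintro _ ⟨x, rfl⟩; exact hs1 x) (countable_range s)
    exact hs2 _ t ht rfl (h5 _ ⟨_, rfl⟩)
  obtain ⟨x, hx⟩ := hcof
  obtain ⟨L', a1, a2, a3⟩ := hc x.1 {t ∈ K | (c t, n t, k t) = x} (sep_subset _ _)
    fun t ht => congrArg Prod.fst ht.2
  obtain ⟨s, hs, a4⟩ := hK1 (t' '' L') (by rintro _ ⟨t, ht, rfl⟩; exact h1 t (a1 ht).1)
    (a2.image _)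
  obtain ⟨t, ht, a5, a6⟩ := hx s hs
  obtain ⟨t1, b1, r, b2, b3⟩ := a3 t ⟨ht, a5⟩
  have e := a5.trans (a1 b1).2.symm
  simp only [Prod.mk.injEq] at e
  refine h4 t ht r b2 (w t1) (a6 (a4 _ ⟨t1, b1, rfl⟩ (h2 t1 (a1 b1).1))) ?_
  rw [e.2.1, e.2.2]
  exact hm _ _ _ _ _ b3 (h3 t1 (a1 b1).1)

theorem pp_cov [NoMaxOrder T] (Y : BSys B A T Λ tv) (R : PP B A T → T → ℕ → T → Prop)
    (hm : ∀ p q γ n a, q ≤ p → R p γ n a → R q γ n a) (p : PP B A T) :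
    ∃ q ≤ p, ∃ s, GS R q s := by
  have hT : ℵ₀ ≤ #T := Y.infA.trans Y.ltA.le
  let R' : PP B A T → T → ℕ → T → Prop := fun p γ n a =>
    R p γ n a ∧ ∀ u ≤ p, ∀ a', R u γ n a' → a' = a
  choose X h1 h2 h3 using fun (x : T × ℕ) => pp_cc Y.infA Y.cc {p | ∃ a, R' p x.1 x.2 a}
  obtain ⟨b1, h4, ξ, h5⟩ := Y.swap (⋃ x, (fun p : PP B A T => p.1.base) '' X x)
    (MP_58a5a1_lc.sm_iUnion hT (by simp [hT]) fun x => mk_image_le.trans ((h2 x).trans Y.ltA.le))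
    p.1.base
  obtain ⟨q, h6, h7⟩ := pp_setb p h4
  refine ⟨q, h6, fun r m a => tv r.1.base ξ m a, fun _ _ _ _ h => Y.mono _ _ _ _ _ (base_le h),
    fun r => Y.func _ _, fun r m => ?_, fun γ r hr => ?_⟩
  · obtain ⟨b, a1, a, a2⟩ := Y.long r.1.base ξ m
    obtain ⟨r', a3, a4⟩ := pp_setb r a1
    exact ⟨r', a3, a, by rw [← a4] at a2; exact a2⟩
  by_contra! H
  obtain ⟨m, b0, a1, K, a2, a3⟩ := h5 r.1.base (h7 ▸ base_le hr)
  obtain ⟨K', b2, b3⟩ := le_mk_iff_exists_subset.1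
    (show ℵ_ 1 ≤ #K from by
      rw [← succ_aleph0, Order.succ_le_iff, ← not_le, le_aleph0_iff_set_countable]
      exact a2)
  obtain ⟨c, f, hf, hc⟩ := exists_common Y K' (b3.le.trans (aleph_le_aleph.2 (by simp))) b0
    (fun a p => ∃ n, R' p γ n a) fun a ha u hu => by
      obtain ⟨w, c1, c2, c3⟩ := a3 a (b2 ha) u hu
      obtain ⟨r', c4, c5⟩ := pp_setb r c1
      obtain ⟨n, u', c6, c7, c8⟩ := H r' c4 m a (c5 ▸ c2)
      have c9 : R' u' γ n a := ⟨c7, fun v hv a' h => by_contra fun h' => c8 v hv a' h' h⟩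
      obtain ⟨p', d1, v, d2, d3⟩ := h3 (γ, n) u' ⟨a, c9⟩
      obtain ⟨a', d4⟩ := h1 _ d1
      obtain rfl : a' = a := c9.2 v d2 a' (hm _ _ _ _ _ d3 d4.1)
      exact ⟨p', ⟨n, d4⟩, c3 _ (mem_iUnion.2 ⟨_, p', d1, rfl⟩)
        ⟨v.1.base, c5 ▸ base_le (d2.trans c6), base_le d3⟩⟩
  choose! n hn using hf
  have hK' : ¬ K'.Countable := by
    rw [← le_aleph0_iff_set_countable, b3, not_le]
    exact aleph0_lt_aleph_one
  obtain ⟨x, hx⟩ : ∃ x : ℕ × ℕ, ¬ {a ∈ K' | (c a, n a) = x}.Countable := by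
    by_contra! hx
    exact hK' ((countable_iUnion hx).mono fun a ha =>
      mem_iUnion.2 ⟨(c a, n a), (⟨ha, rfl⟩ : a ∈ K' ∧ (c a, n a) = (c a, n a))⟩)
  obtain ⟨L', c1, c2, c3⟩ := hc x.1 {a ∈ K' | (c a, n a) = x} (sep_subset _ _)
    fun t ht => congrArg Prod.fst ht.2
  obtain ⟨a, ha, ha'⟩ := not_subset.1 fun h => hx (c2.mono h)
  obtain ⟨a', d1, v, d2, d3⟩ := c3 a ha
  have e : n a' = n a := congrArg Prod.snd ((c1 d1).2.trans ha.2.symm)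
  have := (hn a ha.1).2 v d2 a' (e ▸ hm _ _ _ _ _ d3 (hn a' (c1 d1).1).1)
  exact ha' (this ▸ d1)

theorem exists_ds [IsRegularCardinalOrder T] (hT : ℵ_ 3 < #T) (Y : BSys B A T Λ tv) :
    ∃ lev S, DS (PP B A T) T hv lev S := by
  have hT0 : ℵ₀ < #T := (aleph0_le_aleph 3).trans_lt hT
  have hne : Nonempty T := mk_ne_zero_iff.1 (aleph0_pos.trans hT0).ne'
  have : NoMaxOrder T := ⟨exists_gt' hT0.le⟩
  have := Y.neB
  have hA := Y.infA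
  have hAT := Y.ltA
  have hB : CC B A := Y.cc
  obtain ⟨lev, S, ι, y, enc, h1, h2, h3⟩ := exists_nodes hT
  refine ⟨lev, S, pp_nonempty, hne, fun _ _ _ _ _ h h' => hv_mono h h',
    fun _ _ _ _ _ h h' => h.2.symm.trans h'.2, pp_long, h1, h2, fun i W hm hd => ?_,
    fun R hm p0 hb q hq => ?_, pp_cov Y⟩
  · choose b hb using fun γ => pp_dom hA hAT hB (W γ) (hm γ) (hd γ)
    obtain ⟨β, hβ⟩ := exists_gt_of_mk_lt (s := b '' Iic i)
      (mk_image_le.trans_lt (mk_Iic_lt hT0.le i))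
    exact ⟨β, fun γ hγ => hb γ β (hβ _ ⟨γ, hγ, rfl⟩).le⟩
  · let B0 : ι → PP B A T → ℕ → ℕ → Prop := fun t p n M => ∀ k, ∀ w ∈ y t, ∀ r ≤ p, R r w n k →
      ∃ r' ≤ r, ∃ w' ∈ y t, enc t w' < M ∧ R r' w' n k
    have hB0 : ∀ t n, ∀ p ≤ p0, ∃ r ≤ p, ∃ M, B0 t r n M := by
      intro t n p hp
      obtain ⟨r, hr, K, hK⟩ := hb n p hp
      have key : ∀ j, ∃ s ≤ r, ∃ M, ∀ k < j, ∀ w ∈ y t, ∀ r ≤ s, R r w n k →
          ∃ r' ≤ r, ∃ w' ∈ y t, enc t w' < M ∧ R r' w' n k := by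
        intro j
        induction j with
        | zero => exact ⟨r, le_rfl, 0, fun k hk => absurd hk (by omega)⟩
        | succ j ih =>
          obtain ⟨s, hs, M, hM⟩ := ih
          by_cases h : ∃ s' ≤ s, ∃ w ∈ y t, R s' w n j
          · obtain ⟨s', a1, w0, a2, a3⟩ := h
            refine ⟨s', a1.trans hs, max M (enc t w0 + 1), fun k hk w hw u hu hR => ?_⟩
            rcases Nat.lt_succ_iff_lt_or_eq.1 hk with h | rfl
            · obtain ⟨u', b1, w', b2, b3, b4⟩ := hM k h w hw u (hu.trans a1) hR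
              exact ⟨u', b1, w', b2, by omega, b4⟩
            · exact ⟨u, le_rfl, w0, a2, by omega, hm _ _ _ _ _ hu a3⟩
          · refine ⟨s, hs, M, fun k hk w hw u hu hR => ?_⟩
            rcases Nat.lt_succ_iff_lt_or_eq.1 hk with h' | rfl
            · exact hM k h' w hw u hu hR
            · exact absurd ⟨u, hu, w, hw, hR⟩ h
      obtain ⟨s, hs, M, hM⟩ := key K
      exact ⟨s, hs.trans hr, M, fun k w hw u hu hR =>
        hM k (hK w k u (hu.trans hs) hR) w hw u hu hR⟩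
    have hB0m : ∀ t p q n M M', q ≤ p → M ≤ M' → B0 t p n M → B0 t q n M' := by
      intro t p q n M M' h h' hB k w hw r hr hR
      obtain ⟨r', a1, w', a2, a3, a4⟩ := hB k w hw r (hr.trans h) hR
      exact ⟨r', a1, w', a2, by omega, a4⟩
    choose H hH using fun t => pp_dom hA hAT hB
      (fun p n M => B0 t p n M ∨ ¬ ∃ r, r ≤ p ∧ r ≤ p0)
      (fun p q n M h => Or.imp (hB0m t p q n M M h le_rfl)
        fun h' ⟨r, a1, a2⟩ => h' ⟨r, a1.trans h, a2⟩)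
      (fun p n => by
        by_cases h : ∃ r, r ≤ p ∧ r ≤ p0
        · obtain ⟨r, a1, a2⟩ := h
          obtain ⟨s, b1, M, b2⟩ := hB0 t n r a2
          exact ⟨s, b1.trans a1, M, Or.inl b2⟩
        · exact ⟨p, le_rfl, 0, Or.inr h⟩)
    obtain ⟨K, hK0, hK1, hK2⟩ := h3 H
    obtain ⟨q', hq', t, ht, hub⟩ := pp_catch Y K hK0 y hK1 R hm q
    obtain ⟨t', ht', β, hβ, hv'⟩ := hK2 t ht
    obtain ⟨r, hr0, n0, hn0⟩ := hH t β hβ q'
    have hr := hr0.trans hq'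
    obtain ⟨s, hs, m, hsm⟩ : ∃ s ≤ r, ∃ m, ∀ n < n0, B0 t s n m := by
      clear hn0
      induction n0 with
      | zero => exact ⟨r, le_rfl, 0, fun n hn => absurd hn (by omega)⟩
      | succ j ih =>
        obtain ⟨s, hs, m, hsm⟩ := ih
        obtain ⟨s', a1, M, a2⟩ := hB0 t j s (hs.trans (hr.trans hq))
        refine ⟨s', a1.trans hs, max m M, fun n hn => ?_⟩
        rcases Nat.lt_succ_iff_lt_or_eq.1 hn with h | rfl
        · exact hB0m _ _ _ _ _ _ a1 (le_max_left _ _) (hsm n h)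
        · exact hB0m _ _ _ _ _ _ le_rfl (le_max_right _ _) a2
    obtain ⟨v, a1, a2, a3⟩ := hv' m
    refine ⟨s, hs.trans hr, v, fun n k r' hr' hR => ?_⟩
    obtain ⟨r1, b1, w, b3, b4⟩ := hub n k r' (hr'.trans (hs.trans hr0)) t' ht' v a1 hR
    obtain ⟨r2, c1, l, c2⟩ := pp_long r1 β n
    have c3 : r2 ≤ s := c1.trans (b1.trans hr')
    have hB' : B0 t r2 n (l + m) := by
      rcases lt_or_ge n n0 with h | h
      · exact hB0m _ _ _ _ _ _ c3 (by omega) (hsm n h)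
      · obtain ⟨M, d1, d2 | d2⟩ := hn0 n h r2 (c3.trans hs) l c2
        · exact hB0m _ _ _ _ _ _ le_rfl (by omega) d2
        · exact absurd ⟨r2, le_rfl, c3.trans (hs.trans (hr.trans hq))⟩ d2
    obtain ⟨r3, e1, w', e2, e3, e4⟩ := hB' k w b3 r2 le_rfl
      (hm _ _ _ _ _ c1 b4)
    exact ⟨r3, e1.trans (c1.trans b1), w', ⟨l, a2 ▸ hv_mono e1 c2, a3 l w' e2 e3⟩, e4⟩

end Pool.Agent.Work.MP_d02fb9_lc.L
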