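import Pool.Agent.Work.MP_d02fb9_lc.L.Prik
import Pool.Agent.Work.MP_d02fb9_lc.L.Iface

/-! Chain condition and genericity of the new sequences. -/

namespace Pool.Agent.Work.MP_d02fb9_lc.L

open Cardinal Set Order Filter Function
open Pool.Agent.Work.MP_58a5a1_lc (sm_union sm_biUnion sm_iUnion sm_mono sm_image lt_union
  mk_small_pow mk_small_succ)

theorem exists_closed {O : Type} {μ : Cardinal.{0}} (hμ : ℵ₀ ≤ μ)
    (F : Set O → Set O) (hF : ∀ s : Set O, #s ≤ μ → #(F s) ≤ 2 ^ μ) :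
    ∃ S : Set O, #S ≤ 2 ^ μ ∧ ∀ s ⊆ S, #s ≤ μ → F s ⊆ S := by
  have hμ' : ℵ₀ ≤ 2 ^ μ := hμ.trans (cantor μ).le
  have hs2 : succ μ ≤ 2 ^ μ := succ_le_of_lt (cantor μ)
  let I := (succ μ).ord.ToType
  have hI : #I = succ μ := by simp [I]
  obtain ⟨S, hS⟩ := MP_58a5a1_lc.exists_rec (S := I) (∅ : Set O)
    (fun i g => ⋃ s ∈ {s : Set O | s ⊆ (⋃ j ∈ Iio i, g j) ∧ #s ≤ μ}, F s)
    (fun k f g hfg => by
      have : (⋃ j ∈ Iio k, f j) = ⋃ j ∈ Iio k, g j := iUnion₂_congr hfg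
      simp only [this])
  have hsm : ∀ i, #(S i) ≤ 2 ^ μ := by
    intro i
    induction i using WellFoundedLT.induction with
    | ind i ih =>
      rw [hS i]
      exact sm_biUnion hμ' (mk_small_pow hμ le_rfl
        (sm_biUnion hμ' ((mk_set_le _).trans (hI.le.trans hs2)) ih))
        fun s hs => hF s hs.2
  refine ⟨⋃ i, S i, sm_iUnion hμ' (hI.le.trans hs2) hsm, fun s hs hsμ => ?_⟩
  choose g hg using fun x : s => mem_iUnion.1 (hs x.2)
  have hb : ∃ i : I, ∀ x, g x < i := by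
    by_contra hc
    push Not at hc
    have h1 : (univ : Set I) ⊆ ⋃ x, Iic (g x) := fun i _ => by
      obtain ⟨x, hx⟩ := hc i
      exact mem_iUnion.2 ⟨x, hx⟩
    have h3 : #(univ : Set I) ≤ μ := by
      refine sm_mono h1 (sm_iUnion hμ hsμ fun x => ?_)
      rw [← Iio_union_right]
      refine sm_union hμ (le_of_lt_succ ?_) (by rw [mk_singleton]; exact one_le_aleph0.trans hμ)
      simpa [I] using mk_Iio_lt (g x) (by simp [I])
    rw [mk_univ, hI] at h3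
    exact absurd h3 (not_le.2 (lt_succ μ))
  obtain ⟨i, hi⟩ := hb
  refine Subset.trans ?_ (subset_iUnion _ i)
  rw [hS i]
  refine subset_biUnion_of_mem (u := F) ⟨fun x hx => ?_, hsμ⟩
  exact mem_biUnion (hi ⟨x, hx⟩) (hg ⟨x, hx⟩)

theorem exists_predense {O Q : Type} {μ : Cardinal.{0}} (hμ : ℵ₀ ≤ μ)
    (supp : Q → Set O) (hsupp : ∀ p, #(supp p) ≤ μ) (E : Set O → Q → Q → Prop) (A : Set Q)
    (hE : ∀ s : Set O, #s ≤ μ → ∃ B ⊆ A, #B ≤ 2 ^ μ ∧ ∀ p ∈ A, ∃ q ∈ B, E s p q) :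
    ∃ B ⊆ A, #B ≤ 2 ^ μ ∧ ∀ p ∈ A, ∃ q ∈ B, ∃ s, E s p q ∧ supp p ∩ supp q ⊆ s := by
  have hμ' : ℵ₀ ≤ 2 ^ μ := hμ.trans (cantor μ).le
  choose! B hB1 hB2 hB3 using hE
  obtain ⟨S, hS1, hS2⟩ := exists_closed hμ (fun s => ⋃ q ∈ B s, supp q) fun s hs =>
    sm_biUnion hμ' (hB2 s hs) fun q _ => (hsupp q).trans (cantor μ).le
  refine ⟨⋃ s ∈ {s : Set O | s ⊆ S ∧ #s ≤ μ}, B s, iUnion₂_subset fun s hs => hB1 s hs.2,
    sm_biUnion hμ' (mk_small_pow hμ le_rfl hS1) fun s hs => hB2 s hs.2, fun p hp => ?_⟩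
  have hs : #(supp p ∩ S : Set O) ≤ μ := sm_mono inter_subset_left (hsupp p)
  obtain ⟨q, hq, h⟩ := hB3 (supp p ∩ S) hs p hp
  exact ⟨q, mem_biUnion (show supp p ∩ S ∈ _ from ⟨inter_subset_right, hs⟩) hq, _, h,
    fun x hx => ⟨hx.1, hS2 _ inter_subset_right hs (mem_biUnion hq hx.2)⟩⟩

variable {T Λ I : Type} {X : Cx T Λ I}

namespace Cond

theorem compat {p q : Cond X} (hl : p.l = q.l)
    (h : ∀ α ∈ p.supp, α ∈ q.supp → ∀ n a, p.f n α = some a ↔ q.f n α = some a) :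
    ∃ r, r ≤ p ∧ r ≤ q := by
  classical
  let r : Cond X :=
    { l := p.l
      f := fun n α => if α ∈ p.supp then p.f n α else q.f n α
      d := fun n => p.d n ∪ q.d n
      A := fun n => p.A n ∩ q.A n
      sm := sm_mono (fun α ⟨n, h⟩ => by
        split_ifs at h with h'
        · exact Or.inl h'
        · exact Or.inr ⟨n, h⟩) (sm_union X.inf p.sm_supp q.sm)
      pr := fun n => lt_union (X.lt0 n).le (p.pr n) (q.pr n)
      dis := fun n hn α hα => by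
        rcases hα with hα | hα
        · rw [if_pos (mem_supp_d hα), p.dis n hn α hα]
        · have h1 := q.dis n (hl ▸ hn) α hα
          split_ifs with h'
          · by_contra h2
            obtain ⟨a, ha⟩ := Option.ne_none_iff_exists'.1 h2
            have h3 := (h α h' (mem_supp_d hα) n a).1 ha
            simp [h1] at h3
          · exact h1
      vl := fun n α a h => by
        split_ifs at h
        exacts [p.vl _ _ _ h, q.vl _ _ _ h]
      mem := fun n => inter_mem (p.mem n) (q.mem n) }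
  refine ⟨r, le_of_eq rfl (fun n α a h1 => (if_pos (mem_supp_f h1)).trans h1)
    fun n _ => ⟨subset_union_left, inter_subset_left⟩, le_of_eq hl (fun n α a h1 => ?_)
    fun n _ => ⟨subset_union_right, inter_subset_right⟩⟩
  by_cases h' : α ∈ p.supp
  · exact (if_pos h').trans ((h α h' (mem_supp_f h1) n a).2 h1)
  · exact (if_neg h').trans h1

theorem cc (A : Set (Cond X)) :
    ∃ B ⊆ A, #B ≤ 2 ^ X.μ ∧ ∀ p ∈ A, ∃ q ∈ B, ∃ r, r ≤ p ∧ r ≤ q := by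
  have hV : #(⋃ n, X.V n) ≤ X.μ := sm_iUnion X.inf (mk_le_aleph0.trans X.inf) fun n =>
    (X.smV n).trans (X.le n)
  obtain ⟨B, h1, h2, h3⟩ := exists_predense X.inf supp sm_supp
    (fun s p q => p.l = q.l ∧ ∀ α ∈ s, ∀ n a, p.f n α = some a ↔ q.f n α = some a) A
    fun s hs => by
      obtain ⟨B, a1, a2, a3⟩ := exists_reps (fun p : Cond X =>
        (p.l, {z : ℕ × s × (⋃ n, X.V n) | p.f z.1 z.2.1 = some z.2.2})) A
      refine ⟨B, a1, a2.trans ?_, fun p hp => ?_⟩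
      · simp only [mk_prod, lift_id, mk_nat, mk_set]
        exact mul_le_of_le (X.inf.trans (cantor _).le) (X.inf.trans (cantor _).le)
          (power_le_power_left two_ne_zero (mul_le_of_le X.inf X.inf (mul_le_of_le X.inf hs hV)))
      · obtain ⟨q, b1, b2⟩ := a3 p hp
        refine ⟨q, b1, congrArg Prod.fst b2, fun α hα n a => ?_⟩
        have b3 := fun (ha : a ∈ ⋃ n, X.V n) =>
          Set.ext_iff.1 (congrArg Prod.snd b2) (n, ⟨α, hα⟩, ⟨a, ha⟩)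
        exact ⟨fun h => (b3 (mem_iUnion.2 ⟨n, p.vl _ _ _ h⟩)).1 h,
          fun h => (b3 (mem_iUnion.2 ⟨n, q.vl _ _ _ h⟩)).2 h⟩
  refine ⟨B, h1, h2, fun p hp => ?_⟩
  obtain ⟨q, a1, s, a2, a3⟩ := h3 p hp
  exact ⟨q, a1, compat a2.1 fun α b1 b2 => a2.2 α (a3 ⟨b1, b2⟩)⟩

open Classical in
/-- The values at level `m` on the set `d` are replaced by those read from `y`. -/
noncomputable def sw (u : Cond X) (m : ℕ) (hm : m < u.l) (d : Set Λ) (hd : #d ≤ X.μ) (y : I) :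
    Cond X where
  l := u.l
  f n α := if n = m ∧ α ∈ d then some (X.r m α y) else u.f n α
  d := u.d
  A := u.A
  sm := sm_mono (fun α ⟨n, h⟩ => by
    split_ifs at h with h'
    · exact Or.inl h'.2
    · exact Or.inr ⟨n, h⟩) (sm_union X.inf hd u.sm)
  pr := u.pr
  dis n hn α hα := by
    rw [if_neg fun h => by omega]
    exact u.dis n hn α hα
  vl n α a h := by
    split_ifs at h with h'
    · exact Option.some.inj h ▸ h'.1 ▸ X.rV _ _ _
    · exact u.vl _ _ _ h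
  mem := u.mem

theorem sw_pos {u : Cond X} {m hm d hd y α} (h : α ∈ d) :
    (u.sw m hm d hd y).f m α = some (X.r m α y) := if_pos ⟨rfl, h⟩

theorem sw_neg {u : Cond X} {m hm d hd y n α} (h : ¬ (n = m ∧ α ∈ d)) :
    (u.sw m hm d hd y).f n α = u.f n α := if_neg h

theorem sw_le {u c : Cond X} {m hm d hd y} (h : u ≤ c)
    (h' : ∀ α ∈ d, α ∈ c.supp → u.f m α = some (X.r m α y)) : u.sw m hm d hd y ≤ c := by
  have e : ∀ n, ∀ α ∈ c.supp, (u.sw m hm d hd y).f n α = u.f n α := by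
    intro n α hα
    by_cases h1 : n = m ∧ α ∈ d
    · rw [h1.1, sw_pos h1.2, h' α h1.2 hα]
    · exact sw_neg h1
  refine ⟨h.1, fun n α a h1 => (e n α (mem_supp_f h1)).trans (h.2.1 _ _ _ h1), h.2.2.1,
    fun n a b => ?_⟩
  obtain ⟨x, h1, h2⟩ := h.2.2.2 n a b
  exact ⟨x, h1, fun α hα => (e n α (mem_supp_d hα)).trans (h2 α hα)⟩

theorem exists_long (p : Cond X) (m : ℕ) : ∃ q ≤ p, m < q.l := by
  choose x hx using fun n => Ultrafilter.nonempty_of_mem (p.mem n)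
  exact ⟨p.stem (m + 1) x, stem_le fun n _ _ => hx n, by rw [stem_l]; omega⟩

theorem long (p : Cond X) (ξ : Λ) (m : ℕ) : ∃ q ≤ p, ∃ a, q.f m ξ = some a := by
  obtain ⟨q, h1, h2⟩ := exists_long p m
  obtain ⟨y, -⟩ := Ultrafilter.nonempty_of_mem (p.mem 0)
  rcases h : q.f m ξ with _ | a
  · refine ⟨q.sw m h2 {ξ} (by rw [mk_singleton]; exact one_le_aleph0.trans X.inf) y,
      le_trans (b := q) (le_of_eq rfl (fun n α a h3 => (sw_neg ?_).trans h3)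
        fun _ _ => ⟨subset_rfl, subset_rfl⟩) h1, _, sw_pos rfl⟩
    rintro ⟨rfl, rfl⟩
    simp [h] at h3
  · exact ⟨q, h1, a, h⟩

/-- The `ξ`-th function at level `m` is almost everywhere determined by the values on `d`. -/
def Det (X : Cx T Λ I) (m : ℕ) (d : Set Λ) (ξ : Λ) : Prop :=
  ∃ h : (d → X.V m) → X.V m, ∀ᶠ x in X.U m, X.r m ξ x = h fun α => ⟨X.r m α x, X.rV _ _ _⟩

theorem mk_det (m : ℕ) {d : Set Λ} (hd : #d < X.κ m) : #{ξ | Det X m d ξ} ≤ #T := by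
  choose h hh using fun ξ : {ξ | Det X m d ξ} => ξ.2
  refine (mk_le_of_injective (f := h) fun ξ ξ' e => Subtype.ext (by_contra fun h' => ?_)).trans ?_
  · obtain ⟨x, a1, a2, a3⟩ := ((hh ξ).and ((hh ξ').and (X.ne m _ _ h'))).exists
    exact a3 (a1.trans (e ▸ a2.symm))
  · have h1 : #(d → X.V m) ≤ X.μ := ((mk_fun_le X m hd).trans (X.pow m).le).trans (X.le _)
    rw [← power_def, X.hT]
    refine le_trans ?_ (le_succ _)
    rw [← power_self_eq X.inf]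
    exact (power_le_power_right ((X.smV m).trans (X.le m))).trans
      (power_le_power_left (aleph0_pos.trans_le X.inf).ne' h1)

theorem exists_fibre {m : ℕ} {d : Set Λ} {ξ : Λ} (h : ¬ Det X m d ξ) {A : Set I}
    (hA : A ∈ X.U m) : ∃ x0 ∈ A,
      ¬ {a | ∃ x ∈ A, (∀ α ∈ d, X.r m α x = X.r m α x0) ∧ a = X.r m ξ x}.Countable := by
  by_contra! H
  obtain ⟨y, -⟩ := Ultrafilter.nonempty_of_mem hA
  let φ : I → d → X.V m := fun x α => ⟨X.r m α x, X.rV _ _ _⟩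
  have h1 : ∀ ν : d → X.V m, ∃ e : ℕ → X.V m, ∀ x ∈ A, φ x = ν → ∃ i, X.r m ξ x = e i := by
    intro ν
    by_cases c : ∃ x0 ∈ A, φ x0 = ν
    · obtain ⟨x0, a1, rfl⟩ := c
      obtain ⟨e, he⟩ := ((H x0 a1).preimage (Subtype.val_injective (p := (· ∈ X.V m)))).exists_eq_range
        ⟨⟨_, X.rV m ξ x0⟩, x0, a1, fun _ _ => rfl, rfl⟩
      refine ⟨e, fun x hx e' => ?_⟩
      obtain ⟨i, hi⟩ : (⟨_, X.rV m ξ x⟩ : X.V m) ∈ range e := he ▸
        ⟨x, hx, fun α hα => congrArg Subtype.val (congrFun e' ⟨α, hα⟩), rfl⟩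
      exact ⟨i, (congrArg Subtype.val hi).symm⟩
    · exact ⟨fun _ => ⟨_, X.rV m ξ y⟩, fun x hx e => absurd ⟨x, hx, e⟩ c⟩
  choose e he using h1
  obtain ⟨x, a1, a2⟩ := ((X.cpl m ℕ Set.univ (mk_le_aleph0.trans_lt (X.lt0 m))
    (fun i x => ¬ X.r m ξ x = e (φ x) i) fun i _ =>
      Ultrafilter.eventually_not.2 fun h' => h ⟨fun ν => e ν i, h'⟩).and hA).exists
  obtain ⟨i, hi⟩ := he _ x a2 rfl
  exact a1 i trivial hi

theorem swap (C : Set (Cond X)) (hC : #C ≤ #T) (b : Cond X) :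
    ∃ b1 ≤ b, ∃ ξ, ∀ b2 ≤ b1, ∃ m, ∃ b0 ≤ b2, ∃ K : Set T,
      ¬ K.Countable ∧ ∀ a ∈ K, ∀ u ≤ b0, ∃ w ≤ b2, w.f m ξ = some a ∧
        ∀ c ∈ C, (∃ r, r ≤ w ∧ r ≤ c) → ∃ r, r ≤ u ∧ r ≤ c := by
  have hμ : X.μ ≤ #T := X.hT ▸ (cantor _).le.trans (le_succ _)
  have hT : ℵ₀ ≤ #T := X.inf.trans hμ
  let Z : Set Λ := ⋃ c ∈ C, c.supp
  have hZ : #Z ≤ #T := sm_biUnion hT hC fun c _ => c.sm_supp.trans hμ
  have h1 : #(b.supp ∪ ⋃ m, ⋃ d ∈ {d | d ⊆ Z ∧ #d < X.κ m}, {ξ | Det X m d ξ} : Set Λ) ≤ #T := by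
    refine sm_union hT (b.sm_supp.trans hμ) (sm_iUnion hT (mk_le_aleph0.trans hT) fun m =>
      sm_biUnion hT (sm_mono (t := {d | d ⊆ Z ∧ #d ≤ X.μ})
        (fun d hd => ⟨hd.1, hd.2.le.trans (X.le m)⟩) ?_) fun d hd => mk_det m hd.2)
    rw [X.hT] at hZ ⊢
    exact mk_small_succ X.inf le_rfl hZ
  obtain ⟨ξ, hξ⟩ := (ne_univ_iff_exists_notMem _).1 fun e =>
    ((mk_univ.symm.trans (congrArg (fun s : Set Λ => #s) e).symm).le.trans h1).not_gt X.hΛ
  simp only [mem_union, mem_iUnion, not_or, not_exists] at hξ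
  let b1 : Cond X :=
    { b with
      d := fun n => insert ξ (b.d n)
      pr := fun n => mk_insert_le.trans_lt
        (add_lt_of_lt (X.lt0 n).le (b.pr n) (one_lt_aleph0.trans (X.lt0 n)))
      dis := fun n hn α hα => by
        rcases hα with rfl | hα
        · exact by_contra fun h => hξ.1 (Or.inl ⟨n, h⟩)
        · exact b.dis n hn α hα }
  refine ⟨b1, le_of_eq rfl (fun _ _ _ h => h) fun _ _ => ⟨subset_insert _ _, subset_rfl⟩, ξ,
    fun b2 h2 => ?_⟩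
  have h3 : ξ ∈ b2.d b2.l := (h2.2.2.1 _ le_rfl).1 (mem_insert _ _)
  obtain ⟨x0, a1, a2⟩ := exists_fibre (hξ.2 b2.l (b2.d b2.l ∩ Z) ⟨inter_subset_right,
    (mk_le_mk_of_subset inter_subset_left).trans_lt (b2.pr _)⟩) (b2.mem b2.l)
  have h4 : b2.stem (b2.l + 1) (fun _ => x0) ≤ b2 := stem_le fun n c1 c2 => by
    obtain rfl : n = b2.l := by omega
    exact a1
  refine ⟨b2.l, _, h4, _, a2, ?_⟩
  rintro _ ⟨x, c1, c2, rfl⟩ u hu
  have hd : #(b2.d b2.l) ≤ X.μ := (b2.pr _).le.trans (X.le _)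
  have hl : b2.l < u.l := by
    have := hu.1
    rw [stem_l] at this
    omega
  have hu' := hu.trans h4
  have hx0 : ∀ α ∈ b2.d b2.l, u.f b2.l α = some (X.r b2.l α x0) := fun α hα =>
    hu.2.1 _ _ _ (stem_pos le_rfl (Nat.lt_succ_self _) hα)
  refine ⟨u.sw b2.l hl _ hd x, ⟨hu'.1, fun n α a h => (sw_neg ?_).trans (hu'.2.1 _ _ _ h),
    hu'.2.2.1, fun n d1 d2 => ?_⟩, sw_pos h3, fun c hc ⟨r, d1, d2⟩ => ?_⟩
  · rintro ⟨rfl, h'⟩
    simp [b2.dis _ le_rfl α h'] at h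
  · rcases d1.eq_or_lt with rfl | d3
    · exact ⟨x, c1, fun α hα => sw_pos hα⟩
    · obtain ⟨y, e1, e2⟩ := hu'.2.2.2 n d1 d2
      exact ⟨y, e1, fun α hα => (sw_neg fun h => d3.ne' h.1).trans (e2 α hα)⟩
  · refine ⟨r.sw b2.l (hl.trans_le d1.1) _ hd x0, ⟨d1.1, fun n α a h => ?_, d1.2.2.1,
      fun n e1 e2 => ?_⟩, sw_le d2 fun α e1 e2 => ?_⟩
    · by_cases e : n = b2.l ∧ α ∈ b2.d b2.l
      · rw [e.1] at h ⊢
        rw [sw_pos e.2, ← h, hx0 α e.2]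
      · exact (sw_neg e).trans (d1.2.1 _ _ _ ((sw_neg e).trans h))
    · obtain ⟨y, e3, e4⟩ := d1.2.2.2 n e1 e2
      exact ⟨y, e3, fun α hα => (sw_neg fun h => by omega).trans (e4 α hα)⟩
    · rw [← c2 α ⟨e1, mem_biUnion hc e2⟩]
      exact d1.2.1 _ _ _ (sw_pos e1)

end Cond

theorem Cx.bsys (X : Cx T Λ I) :
    BSys (Cond X) (2 ^ X.μ : Cardinal.{0}).out T Λ fun p ξ m a => p.f m ξ = some a where
  neB := ⟨⟨0, fun _ _ => none, fun _ => ∅, fun _ => Set.univ, by simp,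
    fun n => by simpa using (X.reg n).pos, fun _ _ _ _ => rfl, fun _ _ _ h => by simp at h,
    fun _ => univ_mem⟩⟩
  infA := by rw [mk_out]; exact X.inf.trans (cantor _).le
  ltA := by rw [mk_out, X.hT]; exact lt_succ _
  cc := by rw [mk_out]; exact Cond.cc
  unc _ _ hK _ b := Cond.unc hK b
  mono _ _ _ _ _ h := h.2.1 _ _ _
  func _ _ _ _ _ h h' := Option.some.inj (h.symm.trans h')
  long := Cond.long
  swap := Cond.swap

end Pool.Agent.Work.MP_d02fb9_lc.L
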