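import Pool.Agent.Work.MP_d02fb9_lc.L.Defs
import Pool.Agent.Work.MP_d02fb9_lc.L.Swap
import Pool.Agent.Work.MP_d02fb9_lc.L.Ground
import Pool.Agent.Work.MP_d02fb9_lc.FMain

/-! A model of `λ ≤ 𝔡 < cof([𝔡]^ℵ₀)` from infinitely many strongly compact cardinals. -/

namespace Pool.Agent.Work.MP_d02fb9_lc.L

open Cardinal Set Order Filter Pool.Agent.Lib.ClubGuess Pool.Agent.Lib.ZFModel

theorem StronglyCompact.fine {κ : Cardinal.{0}} (h : StronglyCompact κ) (Y : Type) :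
    ∃ U : Ultrafilter (Set Y), (∀ (J : Type) (S : Set J), #S < κ → ∀ p : J → Set Y → Prop,
      (∀ j ∈ S, ∀ᶠ x in U, p j x) → ∀ᶠ x in U, ∀ j ∈ S, p j x) ∧
      ∀ a : Y, ∀ᶠ x : Set Y in U, #x < κ ∧ a ∈ x := by
  let F : Filter (Set Y) :=
    { sets := {A | ∃ s : Set Y, #s < κ ∧ ∀ x : Set Y, #x < κ → s ⊆ x → x ∈ A}
      univ_sets := ⟨∅, by simpa using h.2.1.pos, fun _ _ _ => trivial⟩
      sets_of_superset := fun ⟨s, h1, h2⟩ h3 => ⟨s, h1, fun x a b => h3 (h2 x a b)⟩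
      inter_sets := fun ⟨s, h1, h2⟩ ⟨t, h3, h4⟩ => ⟨s ∪ t, MP_58a5a1_lc.lt_union h.1.le h1 h3,
        fun x a b => ⟨h2 x a (subset_union_left.trans b), h4 x a (subset_union_right.trans b)⟩⟩ }
  obtain ⟨U, h1, h2⟩ := h.2.2 _ F ⟨fun e => by
      obtain ⟨s, a1, a2⟩ : (∅ : Set (Set Y)) ∈ F := e ▸ mem_bot
      exact a2 s a1 subset_rfl⟩
    ⟨fun S hS hm => by
      choose s a1 a2 using fun A : S => hm A.1 A.2
      exact ⟨⋃ A, s A, (card_iUnion_lt_iff_forall_of_isRegular h.2.1 hS).2 a1,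
        fun x b1 b2 A hA => a2 ⟨A, hA⟩ x b1 ((subset_iUnion s _).trans b2)⟩⟩
  refine ⟨U, fun J S hS p hp => (eventually_cardinal_ball hS).2 hp, fun a => h1 (show _ ∈ F from
    ⟨{a}, ?_, fun x b1 b2 => ⟨b1, b2 rfl⟩⟩)⟩
  rw [mk_singleton]
  exact one_lt_aleph0.trans h.1

theorem StronglyCompact.pow_lt {κ : Cardinal.{0}} (h : StronglyCompact κ) {c : Cardinal.{0}}
    (hc : c < κ) : 2 ^ c < κ := by
  refine not_le.1 fun he => ?_
  obtain ⟨U, h2, h3⟩ := h.fine (Set c.out)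
  have h4 : ∀ x : Set (Set c.out), ∃ S, #x < κ → S ∉ x := fun x => by
    by_contra! hn
    have h5 : x = Set.univ := eq_univ_of_forall fun S => (hn S).2
    have h6 := (hn ∅).1
    rw [h5, mk_univ] at h6
    exact absurd he (not_le.2 (by simpa using h6))
  choose S hS using h4
  have h5 := h2 _ (Set.univ : Set c.out) (by simpa using hc)
    (fun i x => (i ∈ S x ↔ ∀ᶠ y in (U : Filter _), i ∈ S y)) fun i _ => by
      rcases U.em (fun y => i ∈ S y) with h | h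
      · exact h.mono fun x hx => iff_of_true hx h
      · exact h.mono fun x hx => iff_of_false hx (Ultrafilter.eventually_not.1 h)
  obtain ⟨x, h6, h7, h8⟩ := (h5.and (h3 {i | ∀ᶠ y in (U : Filter _), i ∈ S y})).exists
  exact hS x h7 ((show S x = _ from Set.ext fun i => h6 i trivial) ▸ h8)

theorem StronglyCompact.aleph_lt {κ : Cardinal.{0}} (h : StronglyCompact κ) (n : ℕ) :
    ℵ_ n < κ := by
  induction n with
  | zero => simpa using h.1
  | succ n ih =>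
    rw [Nat.cast_succ, ← succ_aleph]
    exact (succ_le_of_lt (cantor _)).trans_lt (h.pow_lt ih)

theorem exists_cx {κ : ℕ → Cardinal.{0}} (hκ : StrictMono κ) (hs : ∀ n, StronglyCompact (κ n))
    {T Λ : Type} (hT : #T = succ (2 ^ ⨆ n, κ n)) (hΛ : #T < #Λ) :
    Nonempty (Cx T Λ (Set Λ)) := by
  classical
  have hle : ∀ n, κ n ≤ ⨆ n, κ n := fun n => le_ciSup bddAbove_of_small n
  choose U h1 h2 using fun n => (hs n).fine Λ
  choose V hV using fun n => le_mk_iff_exists_set.1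
    (show κ n ≤ #T from hT ▸ (hle n).trans ((cantor _).le.trans (le_succ _)))
  have hv : ∀ n, Nonempty (V n) := fun n => mk_ne_zero_iff.1 (hV n ▸ (hs n).2.1.pos.ne')
  have he : ∀ n (x : Set Λ), ∃ e : Λ → V n, #x < κ n → InjOn e x := fun n x => by
    by_cases h : #x < κ n
    · obtain ⟨e⟩ := (Cardinal.le_def _ _).1 (h.le.trans (hV n).ge)
      refine ⟨fun a => if h : a ∈ x then e ⟨a, h⟩ else Classical.arbitrary _,
        fun _ a ha b hb e' => ?_⟩
      simp only [dif_pos ha, dif_pos hb] at e'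
      exact congrArg Subtype.val (e.injective e')
    · exact ⟨fun _ => Classical.arbitrary _, fun h' => absurd h' h⟩
  choose e he using he
  exact ⟨⟨κ, _, fun n => (hs n).2.1, by simpa using (hs 0).aleph_lt 3,
    fun n => (hs _).pow_lt (hκ (Nat.lt_succ_self n)), hle, U, h1, V, fun n => (hV n).le,
    fun n α x => (e n x α).1, fun n α x => (e n x α).2, fun n α β h =>
      ((h2 n α).and (h2 n β)).mono fun x hx e' =>
        h (he n x hx.1.1 hx.1.2 hx.2.2 (Subtype.ext e')), hT, hΛ⟩⟩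

theorem exists_model {κ : ℕ → Cardinal.{0}} (hκ : StrictMono κ)
    (hs : ∀ n, StronglyCompact (κ n)) :
    ∃ (M : Type 1) (E : M → M → Prop), IsZFC E ∧
      ∃ θ, IsOrd E θ ∧ DomLe E θ ∧ (∀ ν, E ν θ → ¬ DomLe E ν) ∧ ¬ CofLe E θ ∧ LamLe E θ := by
  let T := (succ (2 ^ ⨆ n, κ n : Cardinal.{0})).ord.ToType
  have hT : #T = succ (2 ^ ⨆ n, κ n) := mk_ord_toType _
  obtain ⟨X⟩ := exists_cx hκ hs hT (Λ := Set T) (by rw [mk_set]; exact cantor _)
  have h0 : κ 0 ≤ 2 ^ ⨆ n, κ n := (le_ciSup bddAbove_of_small 0).trans (cantor _).le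
  have : IsRegularCardinalOrder T :=
    isRegularCardinalOrder_toType (isRegular_succ ((hs 0).1.le.trans h0))
  obtain ⟨lev, S, D⟩ := exists_ds (hT ▸ lt_succ_of_le
    ((show ℵ_ 3 < κ 0 by simpa using (hs 0).aleph_lt 3).le.trans h0)) X.bsys
  exact D.model

end Pool.Agent.Work.MP_d02fb9_lc.L
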