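import Pool.Agent.Work.MP_58a5a1_lc.Card
import Mathlib.Order.Filter.Ultrafilter.Basic

/-! The base poset: a diagonal forcing with long extenders given by ultrafilters. -/

namespace Pool.Agent.Work.MP_d02fb9_lc.L

open Cardinal Set Order Filter
open Pool.Agent.Work.MP_58a5a1_lc (sm_union sm_biUnion sm_iUnion sm_mono sm_image lt_union)

/-- The large cardinal data. -/
structure Cx (T Λ I : Type) where
  κ : ℕ → Cardinal.{0}
  μ : Cardinal.{0}
  reg : ∀ n, (κ n).IsRegular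
  big : ℵ_ 3 < κ 0
  pow : ∀ n, 2 ^ κ n < κ (n + 1)
  le : ∀ n, κ n ≤ μ
  U : ℕ → Ultrafilter I
  cpl : ∀ n (J : Type) (S : Set J), #S < κ n → ∀ p : J → I → Prop,
    (∀ j ∈ S, ∀ᶠ x in U n, p j x) → ∀ᶠ x in U n, ∀ j ∈ S, p j x
  V : ℕ → Set T
  smV : ∀ n, #(V n) ≤ κ n
  r : ℕ → Λ → I → T
  rV : ∀ n α x, r n α x ∈ V n
  ne : ∀ n α β, α ≠ β → ∀ᶠ x in U n, r n α x ≠ r n β x
  hT : #T = succ (2 ^ μ)
  hΛ : #T < #Λ

variable {T Λ I : Type} {X : Cx T Λ I}

theorem Cx.lt (X : Cx T Λ I) (n : ℕ) : X.κ n < X.κ (n + 1) := (cantor _).trans (X.pow n)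
theorem Cx.mono (X : Cx T Λ I) : Monotone X.κ := monotone_nat_of_le_succ fun n => (X.lt n).le
theorem Cx.lt0 (X : Cx T Λ I) (n : ℕ) : ℵ₀ < X.κ n :=
  ((aleph0_le_aleph 3).trans_lt X.big).trans_le (X.mono (Nat.zero_le n))
theorem Cx.inf (X : Cx T Λ I) : ℵ₀ ≤ X.μ := (X.lt0 0).le.trans (X.le 0)

/-- Conditions: a length, values, promised coordinates and measure one sets. -/
structure Cond (X : Cx T Λ I) where
  l : ℕ
  f : ℕ → Λ → Option T
  d : ℕ → Set Λ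
  A : ℕ → Set I
  sm : #{α | ∃ n, f n α ≠ none} ≤ X.μ
  pr : ∀ n, #(d n) < X.κ n
  dis : ∀ n, l ≤ n → ∀ α ∈ d n, f n α = none
  vl : ∀ n α a, f n α = some a → a ∈ X.V n
  mem : ∀ n, A n ∈ X.U n

namespace Cond

def Le (q p : Cond X) : Prop :=
  p.l ≤ q.l ∧ (∀ n α a, p.f n α = some a → q.f n α = some a) ∧
  (∀ n, q.l ≤ n → p.d n ⊆ q.d n ∧ q.A n ⊆ p.A n) ∧
  ∀ n, p.l ≤ n → n < q.l → ∃ x ∈ p.A n, ∀ α ∈ p.d n, q.f n α = some (X.r n α x)

instance : Preorder (Cond X) where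
  le := Le
  le_refl p := ⟨le_rfl, fun _ _ _ h => h, fun _ _ => ⟨subset_rfl, subset_rfl⟩,
    fun n h h' => absurd h' (by omega)⟩
  le_trans r q p h1 h2 := by
    obtain ⟨a1, a2, a3, a4⟩ := h1
    obtain ⟨b1, b2, b3, b4⟩ := h2
    refine ⟨b1.trans a1, fun n α a h => a2 _ _ _ (b2 _ _ _ h), fun n hn =>
      ⟨(b3 n (a1.trans hn)).1.trans (a3 n hn).1, (a3 n hn).2.trans (b3 n (a1.trans hn)).2⟩,
      fun n h h' => ?_⟩
    rcases lt_or_ge n q.l with c | c
    · obtain ⟨x, c1, c2⟩ := b4 n h c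
      exact ⟨x, c1, fun α hα => a2 _ _ _ (c2 α hα)⟩
    · obtain ⟨x, c1, c2⟩ := a4 n c h'
      exact ⟨x, (b3 n c).2 c1, fun α hα => c2 α ((b3 n c).1 hα)⟩

theorem le_of_eq {q p : Cond X} (h1 : q.l = p.l)
    (h2 : ∀ n α a, p.f n α = some a → q.f n α = some a)
    (h3 : ∀ n, p.l ≤ n → p.d n ⊆ q.d n ∧ q.A n ⊆ p.A n) : q ≤ p :=
  ⟨h1.ge, h2, fun n hn => h3 n (h1 ▸ hn), fun n h h' => absurd h' (by omega)⟩

def supp (p : Cond X) : Set Λ := {α | ∃ n, p.f n α ≠ none} ∪ ⋃ n, p.d n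

theorem sm_supp (p : Cond X) : #p.supp ≤ X.μ :=
  sm_union X.inf p.sm (sm_iUnion X.inf (mk_le_aleph0.trans X.inf) fun n =>
    (p.pr n).le.trans (X.le n))

theorem mem_supp_f {p : Cond X} {n α a} (h : p.f n α = some a) : α ∈ p.supp :=
  Or.inl ⟨n, by simp [h]⟩
theorem mem_supp_d {p : Cond X} {n α} (h : α ∈ p.d n) : α ∈ p.supp :=
  Or.inr (mem_iUnion.2 ⟨n, h⟩)

open Classical in
/-- The levels below `k` are filled in by `x`. -/
noncomputable def stem (p : Cond X) (k : ℕ) (x : ℕ → I) : Cond X where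
  l := max p.l k
  f n α := if p.l ≤ n ∧ n < k ∧ α ∈ p.d n then some (X.r n α (x n)) else p.f n α
  d := p.d
  A := p.A
  sm := sm_mono (fun α ⟨n, h⟩ => by
    split_ifs at h with h'
    · exact mem_supp_d h'.2.2
    · exact Or.inl ⟨n, h⟩) p.sm_supp
  pr := p.pr
  dis n hn α hα := by
    rw [if_neg (by omega)]
    exact p.dis n (by omega) α hα
  vl n α a h := by
    split_ifs at h with h'
    · exact Option.some.inj h ▸ X.rV _ _ _
    · exact p.vl _ _ _ h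
  mem := p.mem

theorem stem_l (p : Cond X) (k x) : (p.stem k x).l = max p.l k := rfl

theorem stem_pos {p : Cond X} {k x n α} (h1 : p.l ≤ n) (h2 : n < k) (h3 : α ∈ p.d n) :
    (p.stem k x).f n α = some (X.r n α (x n)) := if_pos ⟨h1, h2, h3⟩

theorem stem_neg {p : Cond X} {k x n α} (h : ¬ (p.l ≤ n ∧ n < k ∧ α ∈ p.d n)) :
    (p.stem k x).f n α = p.f n α := if_neg h

theorem stem_val {p : Cond X} {k x n α a} (h : p.f n α = some a) :
    (p.stem k x).f n α = some a := by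
  rw [stem_neg fun h' => by simp [p.dis n h'.1 α h'.2.2] at h, h]

theorem stem_le {p : Cond X} {k x} (h : ∀ n, p.l ≤ n → n < k → x n ∈ p.A n) : p.stem k x ≤ p :=
  ⟨le_max_left _ _, fun _ _ _ => stem_val, fun _ _ => ⟨subset_rfl, subset_rfl⟩,
    fun n h1 h2 => by
      have h3 : n < k := by rw [stem_l] at h2; omega
      exact ⟨x n, h n h1 h3, fun α hα => stem_pos h1 h3 hα⟩⟩

theorem exists_stem {q p : Cond X} (h : q ≤ p) :
    ∃ x, (∀ n, p.l ≤ n → n < q.l → x n ∈ p.A n) ∧ q ≤ p.stem q.l x := by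
  obtain ⟨a1, a2, a3, a4⟩ := h
  have : Nonempty I := (Ultrafilter.nonempty_of_mem (p.mem 0)).nonempty
  choose! x hx1 hx2 using a4
  refine ⟨x, hx1, le_of_eq (max_eq_right a1).symm (fun n α a h => ?_) fun n hn =>
    a3 n ((le_max_right _ _).trans hn)⟩
  by_cases c : p.l ≤ n ∧ n < q.l ∧ α ∈ p.d n
  · rw [stem_pos c.1 c.2.1 c.2.2] at h
    exact h ▸ hx2 n c.1 c.2.1 α c.2.2
  · exact a2 _ _ _ (stem_neg c ▸ h)

theorem stem_le_stem {q p : Cond X} {k x x'} (h : q ≤ p) (hl : q.l = p.l)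
    (hd : ∀ n, p.l ≤ n → n < k → q.d n = p.d n)
    (hx : ∀ n, p.l ≤ n → n < k → ∀ α ∈ p.d n, X.r n α (x n) = X.r n α (x' n)) :
    q.stem k x ≤ p.stem k x' := by
  refine le_of_eq (by rw [stem_l, stem_l, hl]) (fun n α a h1 => ?_) fun n hn =>
    h.2.2.1 n (hl.le.trans ((le_max_left _ _).trans hn))
  by_cases c : p.l ≤ n ∧ n < k ∧ α ∈ p.d n
  · rw [stem_pos c.1 c.2.1 c.2.2] at h1
    rw [stem_pos (hl.le.trans c.1) c.2.1 (hd n c.1 c.2.1 ▸ c.2.2), hx n c.1 c.2.1 α c.2.2, h1]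
  · exact stem_val (h.2.1 _ _ _ (stem_neg c ▸ h1))

/-- Direct extensions that keep promises and measure one sets below `k`. -/
def Rk (k : ℕ) (q p : Cond X) : Prop :=
  q ≤ p ∧ q.l = p.l ∧ ∀ n, p.l ≤ n → n < k → q.d n = p.d n ∧ q.A n = p.A n

theorem Rk.refl (k : ℕ) (p : Cond X) : Rk k p p := ⟨le_rfl, rfl, fun _ _ _ => ⟨rfl, rfl⟩⟩

theorem Rk.trans {k : ℕ} {r q p : Cond X} (h : Rk k r q) (h' : Rk k q p) : Rk k r p :=
  ⟨h.1.trans h'.1, h.2.1.trans h'.2.1, fun n a b =>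
    ⟨(h.2.2 n (h'.2.1 ▸ a) b).1.trans (h'.2.2 n a b).1,
      (h.2.2 n (h'.2.1 ▸ a) b).2.trans (h'.2.2 n a b).2⟩⟩

theorem Rk.anti {k k' : ℕ} {q p : Cond X} (h : Rk k q p) (hk : k' ≤ k) : Rk k' q p :=
  ⟨h.1, h.2.1, fun n a b => h.2.2 n a (b.trans_le hk)⟩

theorem Rk.stem {k : ℕ} {q p : Cond X} (h : Rk k q p) (x) : q.stem k x ≤ p.stem k x :=
  stem_le_stem h.1 h.2.1 (fun n a b => (h.2.2 n a b).1) fun _ _ _ _ _ => rfl

theorem exists_lb {ι : Type} (hι : #ι ≤ X.μ) (q : ι → Cond X) (l : ℕ) (hl : ∀ i, (q i).l = l)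
    (hc : ∀ i j, q i ≤ q j ∨ q j ≤ q i) (hd : ∀ n, l ≤ n → #(⋃ i, (q i).d n) < X.κ n)
    (hA : ∀ n, l ≤ n → (⋂ i, (q i).A n) ∈ X.U n) :
    ∃ r : Cond X, r.l = l ∧ (∀ i, r ≤ q i) ∧
      ∀ n, l ≤ n → r.d n = ⋃ i, (q i).d n ∧ r.A n = ⋂ i, (q i).A n := by
  classical
  let f : ℕ → Λ → Option T := fun n α =>
    if h : ∃ a, ∃ i, (q i).f n α = some a then some h.choose else none
  have hf : ∀ n α a, f n α = some a ↔ ∃ i, (q i).f n α = some a := by
    intro n α a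
    simp only [f]
    split_ifs with h
    · obtain ⟨j, hj⟩ := h.choose_spec
      refine ⟨fun e => ⟨j, hj.trans e⟩, fun ⟨i, hi⟩ => ?_⟩
      rcases hc i j with c | c
      · exact (c.2.1 _ _ _ hj).symm.trans hi
      · exact hj.symm.trans (c.2.1 _ _ _ hi)
    · exact ⟨fun e => by simp at e, fun e => absurd ⟨a, e⟩ h⟩
  let r : Cond X :=
    { l := l, f := f
      d := fun n => if l ≤ n then ⋃ i, (q i).d n else ∅
      A := fun n => if l ≤ n then ⋂ i, (q i).A n else Set.univ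
      sm := sm_mono (fun α ⟨n, h⟩ => by
        obtain ⟨a, ha⟩ := Option.ne_none_iff_exists'.1 h
        obtain ⟨i, hi⟩ := (hf _ _ _).1 ha
        exact mem_iUnion.2 ⟨i, mem_supp_f hi⟩) (sm_iUnion X.inf hι fun i => (q i).sm_supp)
      pr := fun n => by
        split_ifs with h
        · exact hd n h
        · simpa using (X.reg n).pos
      dis := fun n hn α hα => by
        rw [if_pos hn] at hα
        obtain ⟨i, hi⟩ := mem_iUnion.1 hα
        by_contra h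
        obtain ⟨a, ha⟩ := Option.ne_none_iff_exists'.1 h
        obtain ⟨j, hj⟩ := (hf _ _ _).1 ha
        rcases hc i j with c | c
        · simpa [(q i).dis n (hl i ▸ hn) α hi] using c.2.1 _ _ _ hj
        · simp [(q j).dis n (hl j ▸ hn) α ((c.2.2.1 n (hl j ▸ hn)).1 hi)] at hj
      vl := fun n α a h => by
        obtain ⟨i, hi⟩ := (hf _ _ _).1 h
        exact (q i).vl _ _ _ hi
      mem := fun n => by
        split_ifs with h
        · exact hA n h
        · exact univ_mem }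
  have h1 : ∀ n, l ≤ n → r.d n = ⋃ i, (q i).d n ∧ r.A n = ⋂ i, (q i).A n :=
    fun n hn => ⟨if_pos hn, if_pos hn⟩
  refine ⟨r, rfl, fun i => le_of_eq (hl i).symm (fun n α a h => (hf _ _ _).2 ⟨i, h⟩)
    fun n hn => ?_, h1⟩
  rw [(h1 n (hl i ▸ hn)).1, (h1 n (hl i ▸ hn)).2]
  exact ⟨subset_iUnion (fun i => (q i).d n) i, iInter_subset (fun i => (q i).A n) i⟩

theorem iInter_mem {ι : Type} {n : ℕ} (hι : #ι < X.κ n) {s : ι → Set I} (h : ∀ i, s i ∈ X.U n) :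
    (⋂ i, s i) ∈ X.U n :=
  (X.cpl n ι Set.univ (by rwa [mk_univ]) (fun i x => x ∈ s i) fun i _ => h i).mono
    fun _ hx => mem_iInter.2 fun i => hx i trivial

theorem closed_Rk (k : ℕ) : MP_58a5a1_lc.Closed (Rk (X := X) k) (X.κ k) := by
  intro ι q ⟨i0⟩ hι hc
  have hl : ∀ i, (q i).l = (q i0).l := fun i => (hc i i0).elim (·.2.1) (·.2.1.symm)
  have he : ∀ n, (q i0).l ≤ n → n < k → ∀ i, (q i).d n = (q i0).d n ∧ (q i).A n = (q i0).A n := by
    intro n a b i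
    rcases hc i i0 with c | c
    · exact c.2.2 n a b
    · exact (c.2.2 n (hl i ▸ a) b).imp Eq.symm Eq.symm
  have : Nonempty ι := ⟨i0⟩
  have he' : ∀ n, (q i0).l ≤ n → n < k →
      (⋃ i, (q i).d n) = (q i0).d n ∧ (⋂ i, (q i).A n) = (q i0).A n := fun n a b =>
    ⟨by simp only [(he n a b _).1, iUnion_const], by simp only [(he n a b _).2, iInter_const]⟩
  obtain ⟨r, h1, h2, h3⟩ := exists_lb (hι.le.trans (X.le k)) q _ hl
    (fun i j => (hc i j).imp (·.1) (·.1)) (fun n hn => by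
      rcases lt_or_ge n k with c | c
      · rw [(he' n hn c).1]
        exact (q i0).pr n
      · exact (card_iUnion_lt_iff_forall_of_isRegular (X.reg n) (hι.trans_le (X.mono c))).2
          fun i => (q i).pr n) fun n hn => by
      rcases lt_or_ge n k with c | c
      · rw [(he' n hn c).2]
        exact (q i0).mem n
      · exact iInter_mem (hι.trans_le (X.mono c)) fun i => (q i).mem n
  refine ⟨r, fun i => ⟨h2 i, h1.trans (hl i).symm, fun n a b => ?_⟩⟩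
  have a' : (q i0).l ≤ n := hl i ▸ a
  rw [(h3 n a').1, (h3 n a').2, (he' n a' b).1, (he' n a' b).2, (he n a' b i).1, (he n a' b i).2]
  exact ⟨rfl, rfl⟩

theorem exists_capture {p s : Cond X} {k x} (hk : p.l ≤ k) (hs : s ≤ p.stem k x) (hl : s.l = k) :
    ∃ q, Rk k q p ∧ q.stem k x ≤ s := by
  classical
  let q : Cond X :=
    { l := p.l
      f := fun n α => if p.l ≤ n ∧ n < k ∧ α ∈ p.d n then none else s.f n α
      d := fun n => if n < k then p.d n else s.d n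
      A := fun n => if n < k then p.A n else s.A n
      sm := sm_mono (fun α ⟨n, h⟩ => by
        refine ⟨n, ?_⟩
        split_ifs at h with h'
        · exact absurd rfl h
        · exact h) s.sm
      pr := fun n => by
        split_ifs
        exacts [p.pr n, s.pr n]
      dis := fun n hn α hα => by
        by_cases h1 : n < k
        · rw [if_pos h1] at hα
          exact if_pos ⟨hn, h1, hα⟩
        · rw [if_neg h1] at hα
          rw [if_neg fun h => h1 h.2.1]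
          exact s.dis n (by omega) α hα
      vl := fun n α a h => by
        split_ifs at h
        exact s.vl _ _ _ h
      mem := fun n => by
        split_ifs
        exacts [p.mem n, s.mem n] }
  have h1 : ∀ n < k, q.d n = p.d n ∧ q.A n = p.A n := fun n hn => ⟨if_pos hn, if_pos hn⟩
  have h2 : ∀ n, k ≤ n → q.d n = s.d n ∧ q.A n = s.A n := fun n hn =>
    ⟨if_neg hn.not_gt, if_neg hn.not_gt⟩
  have h3 : ∀ n α, ¬ (p.l ≤ n ∧ n < k ∧ α ∈ p.d n) → q.f n α = s.f n α := fun n α h => if_neg h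
  refine ⟨q, ⟨le_of_eq rfl (fun n α a h => ?_) fun n hn => ?_, rfl, fun n _ b => h1 n b⟩,
    le_of_eq ((max_eq_right hk).trans hl.symm) (fun n α a h => ?_) fun n hn => ?_⟩
  · rw [h3 n α fun h' => by simp [p.dis n h'.1 α h'.2.2] at h]
    exact hs.2.1 _ _ _ (stem_val h)
  · rcases lt_or_ge n k with c | c
    · rw [(h1 n c).1, (h1 n c).2]
      exact ⟨subset_rfl, subset_rfl⟩
    · rw [(h2 n c).1, (h2 n c).2]
      exact hs.2.2.1 n (hl ▸ c)
  · by_cases c : p.l ≤ n ∧ n < k ∧ α ∈ p.d n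
    · rw [stem_pos (p := q) c.1 c.2.1 ((h1 n c.2.1).1 ▸ c.2.2), ← h]
      exact (hs.2.1 _ _ _ (stem_pos c.1 c.2.1 c.2.2)).symm
    · exact stem_val ((h3 n α c).trans h)
  · exact ⟨(h2 n (hl ▸ hn)).1.ge, (h2 n (hl ▸ hn)).2.le⟩

end Cond

end Pool.Agent.Work.MP_d02fb9_lc.L
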