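import Mathlib.Order.Filter.CardinalInter
import Mathlib.Order.Filter.Ultrafilter.Defs

/-! The large cardinal hypothesis, about the ambient universe of small types. -/

namespace Pool.Agent.Work.MP_d02fb9_lc.L

open Cardinal

/-- `κ` is strongly compact: it is uncountable and regular, and every `κ`-complete proper filter
on any set extends to a `κ`-complete ultrafilter. -/
def StronglyCompact (κ : Cardinal.{0}) : Prop :=
  ℵ₀ < κ ∧ κ.IsRegular ∧ ∀ (X : Type) (F : Filter X), F.NeBot → CardinalInterFilter F κ →
    ∃ U : Ultrafilter X, (U : Filter X) ≤ F ∧ CardinalInterFilter (U : Filter X) κ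

end Pool.Agent.Work.MP_d02fb9_lc.L
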