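import Pool.Agent.Work.MP_d02fb9_lc.Guess

/-! A system of countable sets on a regular cardinal above `ℵ₃` with long chains catching every
assignment of ordinals; the chains have size at most `ℵ₃`. -/

namespace Pool.Agent.Work.MP_d02fb9_lc.L

open Cardinal Set Order Pool.Agent.Lib.ClubGuess

variable {T : Type} [LinearOrder T] [WellFoundedLT T] [IsRegularCardinalOrder T]

theorem exists_nodes₀ (hT : ℵ_ 3 < #T) : ∃ (ι : Type) (pred : ι → Set ι) (x : ι → Set T),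
    #ι ≤ #T ∧ (∀ t, (pred t).Countable) ∧ (∀ t, (x t).Countable) ∧ (∀ t, t ∉ pred t) ∧
    ∀ H : ι → T, ∃ K : Set ι, #K ≤ ℵ_ 3 ∧
      (∀ s ⊆ K, s.Countable → ∃ t' ∈ K, ∀ t ∈ s, pred t ⊆ pred t' ∧ x t ⊆ x t') ∧
      ∀ t ∈ K, ∃ t' ∈ K, t ∈ pred t' ∧ ∃ β ∈ x t', H t ≤ β := by
  classical
  have h23 : (ℵ_ 2 : Cardinal.{0}) < #S3 := by
    rw [mk_S3, aleph_lt_aleph, ← two_add_one_eq_three]
    exact Order.lt_add_one_iff.2 le_rfl
  have hS0 : ℵ₀ < #S3 := (aleph0_le_aleph 2).trans_lt h23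
  have hT0 : ℵ₀ ≤ #T := (aleph0_le_aleph 3).trans hT.le
  have hne : Nonempty T := mk_ne_zero_iff.1 (aleph0_pos.trans_le hT0).ne'
  have : Inhabited T := ⟨Classical.arbitrary T⟩
  obtain ⟨Q, hQ1, hQ2, hQ3⟩ := club_guessing h23
  rw [mk_S3] at hQ1
  choose! e he1 he2 using fun (ε : T)
    (h : ∃ f : S3 → T, IsNormal f ∧ IsLUB (range f) ε) => h
  let rs : Set S3 → (S3 → T) → S3 → T := fun q f i => if i ∈ q then f i else default
  have hrs : ∀ (q q' : Set S3) f, q' ⊆ q → rs q' (rs q f) = rs q' f := by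
    intro q q' f h
    funext i
    by_cases hi : i ∈ q'
    · simp [rs, hi, h hi]
    · simp [rs, hi]
  have hrc : ∀ (q : Set S3) f g, (∀ i ∈ q, f i = g i) → rs q f = rs q g := by
    intro q f g h
    funext i
    by_cases hi : i ∈ q
    · simp [rs, hi, h i hi]
    · simp [rs, hi]
  let I : Set (Set S3 × (S3 → T)) := {t | t.1 ∈ Q ∧ ∃ ε, t.2 = rs t.1 (e ε)}
  refine ⟨I, fun t => {t' | ∃ i ∈ t.1.1, t'.1 = (t.1.1 ∩ Iio i, rs (t.1.1 ∩ Iio i) t.1.2)},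
    fun t => t.1.2 '' t.1.1, ?_, fun t => ?_, fun t => (hQ2 _ t.2.1).image _, ?_, fun H => ?_⟩
  · have hsub : I ⊆ range fun p : Q × T => (p.1.1, rs p.1.1 (e p.2)) := by
      rintro ⟨q, f⟩ ⟨h1, ε, h2⟩
      exact ⟨(⟨q, h1⟩, ε), Prod.ext rfl h2.symm⟩
    refine (mk_le_mk_of_subset hsub).trans (mk_range_le.trans ?_)
    simp only [mk_prod, lift_id]
    exact mul_le_of_le hT0 (hQ1.trans hT.le) le_rfl
  · refine ((((hQ2 _ t.2.1).image fun i => (t.1.1 ∩ Iio i, rs (t.1.1 ∩ Iio i) t.1.2))).preimage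
      Subtype.val_injective).mono ?_
    rintro t' ⟨i, hi, h⟩
    exact ⟨i, hi, h.symm⟩
  · rintro t ⟨i, hi, h⟩
    have h1 := congrArg Prod.fst h
    simp only at h1
    rw [h1] at hi
    exact lt_irrefl _ (mem_Iio.1 hi.2)
  let H' : Set S3 × (S3 → T) → T := fun t => if h : t ∈ I then H ⟨t, h⟩ else default
  have hbd : ∀ s : Set T, #s < #T → ∃ b, (∀ a ∈ s, a < b) ∧ ∀ c, (∀ a ∈ s, a < c) → b ≤ c := by
    intro s hs
    obtain ⟨b, hb, hmin⟩ := wellFounded_lt.has_min {b | ∀ a ∈ s, a < b} (exists_gt_of_mk_lt hs)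
    exact ⟨b, hb, fun c hc => not_lt.1 (hmin c hc)⟩
  choose! bd hbd1 hbd2 using hbd
  let Z : S3 → (S3 → T) → Set T := fun i f =>
    f '' Iio i ∪ {a | ∃ k < i, ∃ q ∈ Q, q ⊆ Iic k ∧ a = H' (q, rs q f)}
  have hZ : ∀ i f, #(Z i f) < #T := by
    intro i f
    refine (mk_union_le _ _).trans_lt (add_lt_of_lt hT0 ?_ ?_)
    · exact (mk_image_le.trans ((mk_set_le _).trans mk_S3.le)).trans_lt hT
    · refine lt_of_le_of_lt ?_ hT
      refine le_trans (mk_le_mk_of_subset (t := (fun q => H' (q, rs q f)) '' Q) ?_)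
        (mk_image_le.trans hQ1)
      rintro _ ⟨k, -, q, hq, -, rfl⟩
      exact ⟨q, hq, rfl⟩
  obtain ⟨δ, hδ⟩ := exists_rec (fun i f => bd (Z i f)) (by
    intro i f g h
    congr 1
    simp only [Z]
    congr 1
    · exact image_congr fun a ha => h a ha
    · ext a
      refine exists_congr fun k => and_congr_right fun hk => exists_congr fun q =>
        and_congr_right fun _ => and_congr_right fun hq => ?_
      rw [hrc q f g fun j hj => h j (lt_of_le_of_lt (hq hj) hk)])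
  have hlt : ∀ i, ∀ a ∈ Z i δ, a < δ i := fun i a ha => by
    rw [hδ i]
    exact hbd1 _ (hZ i δ) a ha
  have hnorm : IsNormal δ := by
    rw [isNormal_iff]
    refine ⟨fun k i hki => hlt i _ (Or.inl ⟨k, hki, rfl⟩), fun i hi a ha => ?_⟩
    rw [hδ i]
    refine hbd2 _ (hZ i δ) a ?_
    rintro b (⟨k, hk, rfl⟩ | ⟨k, hk, q, hq, h1, rfl⟩)
    · obtain ⟨k', hk1, hk2⟩ := hi.isSuccPrelimit.lt_iff_exists_lt.1 hk
      exact (hlt k' _ (Or.inl ⟨k, hk2, rfl⟩)).trans_le (ha k' hk1)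
    · obtain ⟨k', hk1, hk2⟩ := hi.isSuccPrelimit.lt_iff_exists_lt.1 hk
      exact (hlt k' _ (Or.inr ⟨k, hk2, q, hq, h1, rfl⟩)).trans_le (ha k' hk1)
  obtain ⟨β, hβ⟩ := exists_gt_of_mk_lt (s := range δ) ((mk_range_le.trans mk_S3.le).trans_lt hT)
  obtain ⟨ε, hε⟩ := exists_isLUB (s := range δ) ⟨β, fun a ha => (hβ a ha).le⟩
  have hex : ∃ f : S3 → T, IsNormal f ∧ IsLUB (range f) ε := ⟨_, hnorm, hε⟩
  obtain ⟨D, hD1, hD2⟩ := exists_club_eq hS0 hnorm (he1 ε hex) hε (he2 ε hex)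
  obtain ⟨C, hC1, hC2, hC3⟩ := hQ3 D hD1
  have hnode : ∀ i ∈ C, (C ∩ Iio i, rs (C ∩ Iio i) δ) ∈ I := fun i hi =>
    ⟨hC3 i hi, ε, hrc _ _ _ fun j hj => hD2 j (hC1 hj.1)⟩
  have hint : ∀ i j : S3, j < i → C ∩ Iio i ∩ Iio j = C ∩ Iio j := by
    intro i j h
    rw [inter_assoc, inter_eq_right.2 (Iio_subset_Iio h.le)]
  have hnext : ∀ i ∈ C, ∃ j ∈ C, i < j := by
    intro i hi
    obtain ⟨j, hj, h⟩ := hC2 {i} (singleton_subset_iff.2 hi) (countable_singleton _)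
    exact ⟨j, hj, h i rfl⟩
  refine ⟨{t | ∃ i ∈ C, t.1 = (C ∩ Iio i, rs (C ∩ Iio i) δ)}, ?_, fun s hs hsc => ?_, ?_⟩
  · refine le_trans (mk_le_mk_of_subset (t := range fun i : C => (⟨_, hnode i.1 i.2⟩ : I)) ?_)
      (mk_range_le.trans ((mk_set_le _).trans mk_S3.le))
    rintro t ⟨i, hi, h⟩
    exact ⟨⟨i, hi⟩, Subtype.ext h.symm⟩
  · have := hsc.to_subtype
    choose i hi ht using fun t : s => hs t.2
    obtain ⟨i', hi', h1⟩ := hC2 (range i) (by rintro _ ⟨t, rfl⟩; exact hi t) (countable_range i)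
    refine ⟨⟨_, hnode i' hi'⟩, ⟨i', hi', rfl⟩, fun t ht' => ?_⟩
    have h2 := ht ⟨t, ht'⟩
    have h3 := h1 _ ⟨⟨t, ht'⟩, rfl⟩
    simp only at h2 ⊢
    rw [h2]
    constructor
    · rintro t'' ⟨j, hj, h4⟩
      refine ⟨j, ⟨hj.1, hj.2.trans h3⟩, ?_⟩
      simp only at h4 ⊢
      rw [h4, hrs _ _ _ inter_subset_left, hrs _ _ _ inter_subset_left, hint _ _ hj.2,
        hint _ _ (hj.2.trans h3)]
    · rintro _ ⟨j, hj, rfl⟩
      have hj' : j ∈ C ∩ Iio i' := ⟨hj.1, hj.2.trans h3⟩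
      exact ⟨j, hj', by simp only [rs, if_pos hj, if_pos hj']⟩
  · rintro t ⟨i, hi, ht⟩
    obtain ⟨j, hj, hij⟩ := hnext i hi
    obtain ⟨k, hk, hjk⟩ := hnext j hj
    have hj' : j ∈ C ∩ Iio k := ⟨hj, hjk⟩
    refine ⟨⟨_, hnode k hk⟩, ⟨k, hk, rfl⟩, ⟨i, ⟨hi, hij.trans hjk⟩, ?_⟩, δ j,
      ⟨j, hj', by simp only [rs, if_pos hj']⟩, ?_⟩
    · simp only
      rw [ht, hrs _ _ _ inter_subset_left, hint _ _ (hij.trans hjk)]
    · refine (hlt j _ (Or.inr ⟨i, hij, _, hC3 i hi, fun a ha => mem_Iic.2 (mem_Iio.1 ha.2).le,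
        ?_⟩)).le
      simp only [H', ← ht]
      rw [dif_pos t.2]

theorem exists_nodes (hT : ℵ_ 3 < #T) : ∃ (lev : T → T) (S : T → ℕ → Set T) (ι : Type)
    (y : ι → Set T) (enc : ι → T → ℕ), (∀ v l, (S v l).Finite) ∧ (∀ v l, v ∉ S v l) ∧
    ∀ H : ι → T, ∃ K : Set ι, #K ≤ ℵ_ 3 ∧
      (∀ s ⊆ K, s.Countable → ∃ t' ∈ K, ∀ t ∈ s, y t ⊆ y t') ∧
      ∀ t ∈ K, ∃ t' ∈ K, ∃ β, H t ≤ β ∧ ∀ m, ∃ v ∈ y t', lev v = β ∧
        ∀ l, ∀ w ∈ y t, enc t w < l + m → w ∈ S v l := by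
  classical
  obtain ⟨ι, pred, x, h1, h2, h3, h4, h5⟩ := exists_nodes₀ hT
  have hT0 : ℵ₀ ≤ #T := (aleph0_le_aleph 3).trans hT.le
  obtain ⟨code⟩ : Nonempty (ι × T × ℕ ↪ T) := by
    rw [← Cardinal.le_def]
    simp only [mk_prod, lift_id, mk_nat]
    exact mul_le_of_le hT0 h1 (mul_le_of_le hT0 le_rfl hT0)
  let y : ι → Set T := fun t => code '' (pred t ×ˢ x t ×ˢ Set.univ)
  have hy : ∀ t, (y t).Countable := fun t => ((h2 t).prod ((h3 t).prod countable_univ)).image _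
  choose enc henc using fun t => countable_iff_exists_injOn.1 (hy t)
  refine ⟨Function.extend code (fun w => w.2.1) id,
    fun v l => {a | ∃ w, code w = v ∧ a ∈ y w.1 ∧ enc w.1 a < l + w.2.2}, ι, y, enc,
    fun v l => ?_, ?_, fun H => ?_⟩
  · by_cases h : ∃ w, code w = v
    · obtain ⟨w, rfl⟩ := h
      refine (Finite.of_finite_image (f := enc w.1) (s := {a | a ∈ y w.1 ∧ enc w.1 a < l + w.2.2})
        ((finite_lt_nat (l + w.2.2)).subset ?_) ((henc w.1).mono fun a ha => ha.1)).subset ?_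
      · rintro _ ⟨a, ha, rfl⟩
        exact ha.2
      · rintro a ⟨w', h6, h7⟩
        rwa [code.injective h6] at h7
    · exact finite_empty.subset fun a ⟨w, hw, _⟩ => h ⟨w, hw⟩
  · rintro v l ⟨w, rfl, ⟨w', h6, h7⟩, -⟩
    rw [code.injective h7] at h6
    exact h4 _ h6.1
  · obtain ⟨K, hK0, hK1, hK2⟩ := h5 H
    refine ⟨K, hK0, fun s hs hsc => ?_, fun t ht => ?_⟩
    · obtain ⟨t', ht', h⟩ := hK1 s hs hsc
      exact ⟨t', ht', fun t ht => image_mono (prod_mono (h t ht).1 (prod_mono (h t ht).2 subset_rfl))⟩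
    · obtain ⟨t', ht', h6, β, h7, h8⟩ := hK2 t ht
      exact ⟨t', ht', β, h8, fun m => ⟨code (t, β, m), ⟨_, ⟨h6, h7, trivial⟩, rfl⟩,
        code.injective.extend_apply _ _ _, fun l w hw h9 => ⟨_, rfl, hw, h9⟩⟩⟩

end Pool.Agent.Work.MP_d02fb9_lc.L
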