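import Pool.Agent.Work.MP_d02fb9_lc.L.Base

/-! Small families of dense open sets are met, countably many classes at a time. -/

namespace Pool.Agent.Work.MP_d02fb9_lc.L

open Cardinal Set Order Filter Function
open Pool.Agent.Work.MP_58a5a1_lc (reduce)

variable {T Λ I : Type} {X : Cx T Λ I}

theorem exists_reps {Q Z : Type} (φ : Q → Z) (A : Set Q) :
    ∃ B ⊆ A, #B ≤ #Z ∧ ∀ p ∈ A, ∃ q ∈ B, φ p = φ q := by
  choose g hg using fun t : (φ '' A) => t.2
  refine ⟨range g, ?_, mk_range_le.trans (mk_set_le _),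
    fun p hp => ⟨g ⟨_, p, hp, rfl⟩, mem_range_self _, (hg ⟨_, p, hp, rfl⟩).2.symm⟩⟩
  rintro _ ⟨t, rfl⟩
  exact (hg t).1

theorem mk_fun_le (X : Cx T Λ I) (n : ℕ) {d : Set Λ} (hd : #d < X.κ n) :
    #(d → X.V n) ≤ 2 ^ X.κ n := by
  rw [← power_def, ← power_self_eq (X.lt0 n).le]
  exact (power_le_power_right (X.smV n)).trans
    (power_le_power_left (X.reg n).pos.ne' hd.le)

theorem exists_stems (X : Cx T Λ I) (d : ℕ → Set Λ) (hd : ∀ n, #(d n) < X.κ n) (k : ℕ) :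
    ∃ S : Set (ℕ → I), #S < X.κ k ∧
      ∀ x : ℕ → I, ∃ x' ∈ S, ∀ n < k, ∀ α ∈ d n, X.r n α (x n) = X.r n α (x' n) := by
  induction k with
  | zero =>
    obtain ⟨y, -⟩ := Ultrafilter.nonempty_of_mem (univ_mem (f := (X.U 0 : Filter I)))
    exact ⟨{fun _ => y}, by rw [mk_singleton]; exact one_lt_aleph0.trans (X.lt0 0),
      fun x => ⟨_, rfl, fun n hn => absurd hn (by omega)⟩⟩
  | succ k ih =>
    obtain ⟨S, h1, h2⟩ := ih
    obtain ⟨Y, -, h3, h4⟩ := exists_reps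
      (fun (y : I) (α : d k) => (⟨X.r k α y, X.rV _ _ _⟩ : X.V k)) Set.univ
    refine ⟨image2 (fun x y => update x k y) S Y, mk_image2_le.trans_lt
      (mul_lt_of_lt (X.lt0 _).le (h1.trans (X.lt k))
        ((h3.trans (mk_fun_le X k (hd k))).trans_lt (X.pow k))), fun x => ?_⟩
    obtain ⟨x', a1, a2⟩ := h2 x
    obtain ⟨y, b1, b2⟩ := h4 (x k) trivial
    refine ⟨_, mem_image2_of_mem a1 b1, fun n hn α hα => ?_⟩
    rcases Nat.lt_succ_iff_lt_or_eq.1 hn with h | rfl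
    · rw [update_of_ne h.ne]
      exact a2 n h α hα
    · rw [update_self]
      exact congrArg Subtype.val (congrFun b2 ⟨α, hα⟩)

namespace Cond

variable {ι : Type} {K : Set ι} {D : ι → Cond X → Prop}

/-- Stems of length `k` capture the sets `D t`. -/
def Cap (K : Set ι) (D : ι → Cond X → Prop) (k : ℕ) (q : Cond X) : Prop :=
  ∀ t ∈ K, ∀ x, (∃ s ≤ q.stem k x, s.l = k ∧ D t s) → D t (q.stem k x)

theorem exists_stage (hK : #K < X.κ 0) (hD : ∀ t p q, q ≤ p → D t p → D t q) (k : ℕ)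
    (p : Cond X) : ∃ q, Rk k q p ∧ (p.l ≤ k → Cap K D k q) := by
  obtain ⟨S, h1, h2⟩ := exists_stems X p.d p.pr k
  obtain ⟨q, h3, h4⟩ := reduce (Rk.refl k) (fun _ _ _ => Rk.trans) (X.lt0 k).le (closed_Rk k)
    (K ×ˢ S) (by
      rw [mk_setProd]
      exact mul_lt_of_lt (X.lt0 k).le (hK.trans_le (X.mono (Nat.zero_le k))) h1)
    (fun i q => D i.1 (q.stem k i.2)) (fun i _ q r h => hD _ _ _ (h.stem _)) p
  refine ⟨q, h3, fun hk t ht x ⟨s, a1, a2, a3⟩ => ?_⟩
  obtain ⟨x', b1, b2⟩ := h2 x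
  have e : ∀ n, q.l ≤ n → n < k → ∀ α ∈ q.d n, X.r n α (x n) = X.r n α (x' n) :=
    fun n c1 c2 α c3 => b2 n c2 α ((h3.2.2 n (h3.2.1 ▸ c1) c2).1 ▸ c3)
  obtain ⟨r, c1, c2⟩ := exists_capture (h3.2.1.le.trans hk)
    (a1.trans (stem_le_stem le_rfl rfl (fun _ _ _ => rfl) e)) a2
  exact hD _ _ _ (stem_le_stem le_rfl rfl (fun _ _ _ => rfl) e)
    (h4 (t, x') ⟨ht, b1⟩ r c1 (hD _ _ _ c2 a3))

theorem exists_cap (hK : #K < X.κ 0) (hD : ∀ t p q, q ≤ p → D t p → D t q) (b : Cond X) :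
    ∃ p ≤ b, ∀ k, p.l ≤ k → Cap K D k p := by
  choose nx h1 h2 using exists_stage hK hD
  let q : ℕ → Cond X := fun k => Nat.rec b (fun k p => nx k p) k
  have hq : ∀ k, Rk k (q (k + 1)) (q k) := fun k => h1 k (q k)
  have hr : ∀ i j, i ≤ j → Rk i (q j) (q i) := by
    intro i j h
    induction j, h using Nat.le_induction with
    | base => exact Rk.refl _ _
    | succ j h ih => exact ((hq j).anti h).trans ih
  have hl : ∀ i, (q i).l = b.l := fun i => (hr 0 i (Nat.zero_le i)).2.1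
  obtain ⟨r, a1, a2, a3⟩ := exists_lb (mk_le_aleph0.trans X.inf) q b.l hl
    (fun i j => (le_total j i).imp (fun h => (hr _ _ h).1) fun h => (hr _ _ h).1)
    (fun n _ => (card_iUnion_lt_iff_forall_of_isRegular (X.reg n)
      (mk_le_aleph0.trans_lt (X.lt0 n))).2 fun i => (q i).pr n)
    fun n _ => iInter_mem (mk_le_aleph0.trans_lt (X.lt0 n)) fun i => (q i).mem n
  refine ⟨r, a2 0, fun k hk t ht x ⟨s, b1, b2, b3⟩ => ?_⟩
  have e : r.stem k x ≤ (q (k + 1)).stem k x := by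
    refine stem_le_stem (a2 (k + 1)) (a1.trans (hl (k + 1)).symm) (fun n c1 c2 => ?_) fun _ _ _ _ _ => rfl
    have c3 : b.l ≤ n := hl (k + 1) ▸ c1
    rw [(a3 n c3).1]
    refine (iUnion_subset fun j => ?_).antisymm (subset_iUnion (fun i => (q i).d n) (k + 1))
    rcases le_total j (k + 1) with h | h
    · exact ((hr _ _ h).1.2.2.1 n c1).1
    · exact ((hr _ _ h).2.2 n c1 (by omega)).1.le
  exact hD _ _ _ e (h2 k (q k) ((hl k).le.trans (a1 ▸ hk)) t ht x ⟨s, b1.trans e, b2, b3⟩)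

/-- Almost all extensions of the stem by `j` steps lie in `W`. -/
def good (W : Cond X → Prop) (p : Cond X) : ℕ → ℕ → (ℕ → I) → Prop
  | 0, k, x => W (p.stem k x)
  | j + 1, k, x => ∀ᶠ y in X.U k, good W p j (k + 1) (update x k y)

theorem good_congr {W : Cond X → Prop} (hW : ∀ p q, q ≤ p → W p → W q) (p : Cond X) (j : ℕ) :
    ∀ k x x', (∀ n < k, p.l ≤ n → ∀ α ∈ p.d n, X.r n α (x n) = X.r n α (x' n)) →
      good W p j k x → good W p j k x' := by
  induction j with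
  | zero =>
    exact fun k x x' h => hW _ _ (stem_le_stem le_rfl rfl (fun _ _ _ => rfl)
      fun n a b α c => (h n b a α c).symm)
  | succ j ih =>
    refine fun k x x' h h' => h'.mono fun y => ih _ _ _ fun n hn a α c => ?_
    rcases Nat.lt_succ_iff_lt_or_eq.1 hn with h1 | rfl
    · rw [update_of_ne h1.ne, update_of_ne h1.ne]
      exact h n h1 a α c
    · rw [update_self, update_self]

theorem exists_good {W : Cond X → Prop} (hW : ∀ p q, q ≤ p → W p → W q) (p : Cond X)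
    (hc : ∀ k, p.l ≤ k → ∀ x, (∃ s ≤ p.stem k x, s.l = k ∧ W s) → W (p.stem k x))
    (hd : ∀ q ≤ p, ∃ r ≤ q, W r) (x0 : ℕ → I) : ∃ j, good W p j p.l x0 := by
  by_contra! H
  choose S h1 h2 using exists_stems X p.d p.pr
  have h3 : ∀ k, ∀ᶠ y in X.U k, ∀ x ∈ S k, (∀ j, ¬ good W p j k x) →
      ∀ j, ¬ good W p j (k + 1) (update x k y) := fun k => X.cpl k _ _ (h1 k) _ fun x _ => by
    by_cases h : ∀ j, ¬ good W p j k x
    · exact (X.cpl k ℕ Set.univ (mk_le_aleph0.trans_lt (X.lt0 k))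
        (fun j y => ¬ good W p j (k + 1) (update x k y))
        fun j _ => Ultrafilter.eventually_not.2 (h (j + 1))).mono fun y hy _ j => hy j trivial
    · exact Eventually.of_forall fun y h' => absurd h' h
  let p' : Cond X :=
    { p with
      A := fun k => p.A k ∩ {y | ∀ x ∈ S k, (∀ j, ¬ good W p j k x) →
        ∀ j, ¬ good W p j (k + 1) (update x k y)}
      mem := fun k => inter_mem (p.mem k) (h3 k) }
  have h4 : p' ≤ p := le_of_eq rfl (fun _ _ _ h => h) fun _ _ => ⟨subset_rfl, inter_subset_left⟩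
  obtain ⟨r, a1, a2⟩ := hd p' h4
  obtain ⟨x, a3, a4⟩ := exists_stem a1
  have key : ∀ k, p.l ≤ k → k ≤ r.l → ∀ j, ¬ good W p j k x := by
    intro k hk
    induction k, hk using Nat.le_induction with
    | base => exact fun _ j h => H j (good_congr hW p j _ _ _ (fun n a b => by omega) h)
    | succ k hk ih =>
      intro h j hj
      obtain ⟨x', b1, b2⟩ := h2 k x
      refine (a3 k hk h).2 x' b1 (fun j' hj' => ih (by omega) j' (good_congr hW p j' _ _ _
        (fun n a _ α c => (b2 n a α c).symm) hj')) j (good_congr hW p j _ _ _ ?_ hj)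
      intro n hn _ α c
      rcases Nat.lt_succ_iff_lt_or_eq.1 hn with h1 | rfl
      · rw [update_of_ne h1.ne]
        exact b2 n h1 α c
      · rw [update_self]
  exact key r.l a1.1 le_rfl 0 (hc r.l a1.1 x ⟨r, a4.trans
    (stem_le_stem h4 rfl (fun _ _ _ => rfl) fun _ _ _ _ _ => rfl), rfl, a2⟩)

theorem exists_all (hK : #K < X.κ 0) (p : Cond X) (j : ℕ) : ∀ k x, (∀ t ∈ K, good (D t) p j k x) →
    (∀ n, p.l ≤ n → n < k → x n ∈ p.A n) → ∃ b ≤ p, ∀ t ∈ K, D t b := by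
  induction j with
  | zero => exact fun k x h h' => ⟨_, stem_le h', h⟩
  | succ j ih =>
    intro k x h h'
    obtain ⟨y, a1, a2⟩ := ((X.cpl k _ K (hK.trans_le (X.mono (Nat.zero_le k))) _ h).and
      (p.mem k)).exists
    refine ih (k + 1) _ a1 fun n b1 b2 => ?_
    rcases Nat.lt_succ_iff_lt_or_eq.1 b2 with h1 | rfl
    · rw [update_of_ne h1.ne]
      exact h' n b1 h1
    · rwa [update_self]

theorem unc (hK : #K ≤ ℵ_ 3) (b : Cond X) (hD : ∀ t p q, q ≤ p → D t p → D t q)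
    (hd : ∀ t ∈ K, ∀ p ≤ b, ∃ q ≤ p, D t q) :
    ∃ c : ι → ℕ, ∀ n, ∃ b' ≤ b, ∀ t ∈ K, c t = n → D t b' := by
  have hK' := hK.trans_lt X.big
  obtain ⟨p, h1, h2⟩ := exists_cap hK' hD b
  obtain ⟨y, -⟩ := Ultrafilter.nonempty_of_mem (p.mem 0)
  choose! c hc using fun t ht => exists_good (hD t) p (fun k hk => h2 k hk t ht)
    (fun q hq => hd t ht q (hq.trans h1)) fun _ => y
  refine ⟨c, fun n => ?_⟩
  obtain ⟨b', a1, a2⟩ := exists_all (K := {t ∈ K | c t = n}) (D := D)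
    ((mk_le_mk_of_subset (sep_subset _ _)).trans_lt hK') p n p.l (fun _ => y)
    (fun t ht => ht.2 ▸ hc t ht.1) fun n a b => by omega
  exact ⟨b', a1.trans h1, fun t ht e => a2 t ⟨ht, e⟩⟩

end Cond

end Pool.Agent.Work.MP_d02fb9_lc.L
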